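import Pool.Agent.H.MP_602efc_co.Lower

/-!
# The two extremal sets used in the construction
-/

namespace CodimTwo

open Finset

variable {d : ℕ}

lemma card_small (R : Finset (Fin d)) (q : ℕ) :
    #(R.powerset.filter (fun s => #s < q)) = bs (#R) q := by
  have h : R.powerset.filter (fun s => #s < q) = (range q).biUnion (fun i => powersetCard i R) := by
    ext s
    simp only [mem_filter, mem_powerset, mem_biUnion, mem_range, mem_powersetCard]
    constructor
    · rintro ⟨h1, h2⟩
      exact ⟨#s, h2, h1, rfl⟩
    · rintro ⟨i, hi, h1, h2⟩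
      exact ⟨h1, by omega⟩
  rw [h, card_biUnion, bs]
  · apply sum_congr rfl
    intro i _
    exact card_powersetCard i R
  · intro i _ j _ hij
    exact pairwise_disjoint_powersetCard R hij

lemma hd_le_add (A B : Finset (Fin d)) : hd A B ≤ #A + #B := by
  unfold hd
  exact Nat.add_le_add (card_le_card sdiff_subset) (card_le_card sdiff_subset)

lemma hd_le_erase (k : Fin d) (A B : Finset (Fin d)) :
    hd A B ≤ hd (A.erase k) (B.erase k) + 1 := by
  by_cases h1 : k ∈ A <;> by_cases h2 : k ∈ B
  · have : hd A B = hd (A.erase k) (B.erase k) := by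
      conv_lhs => rw [← insert_erase h1, ← insert_erase h2]
      exact hd_insert_insert (notMem_erase _ _) (notMem_erase _ _)
    omega
  · have : hd A B = hd (A.erase k) (B.erase k) + 1 := by
      conv_lhs => rw [← insert_erase h1, ← erase_eq_of_notMem h2]
      exact hd_insert_left (notMem_erase _ _) (notMem_erase _ _)
    omega
  · have : hd A B = hd (A.erase k) (B.erase k) + 1 := by
      conv_lhs => rw [← insert_erase h2, ← erase_eq_of_notMem h1]
      exact hd_insert_right (notMem_erase _ _) (notMem_erase _ _)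
    omega
  · rw [erase_eq_of_notMem h1, erase_eq_of_notMem h2]; omega

/-- Existence of the auxiliary family, even case. -/
lemma exists_ball_even (R : Finset (Fin d)) (q : ℕ) (hq : 1 ≤ q) (hR : #R = 2 * q) :
    ∃ S : Finset (Finset (Fin d)), (∀ s ∈ S, s ⊆ R) ∧
      (∀ s ∈ S, ∀ s' ∈ S, hd s s' + 2 ≤ #R) ∧ #S = bs (2 * q) q := by
  refine ⟨R.powerset.filter (fun s => #s < q), ?_, ?_, ?_⟩
  · intro s hs
    exact mem_powerset.mp (mem_filter.mp hs).1
  · intro s hs s' hs'
    have h1 := (mem_filter.mp hs).2
    have h2 := (mem_filter.mp hs').2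
    have h3 := hd_le_add s s'
    omega
  · rw [card_small, hR]

/-- Existence of the auxiliary family, odd case. -/
lemma exists_ball_odd (R : Finset (Fin d)) (q : ℕ) (hq : 1 ≤ q) (hR : #R = 2 * q + 1)
    (r : Fin d) (hr : r ∈ R) :
    ∃ S : Finset (Finset (Fin d)), (∀ s ∈ S, s ⊆ R) ∧
      (∀ s ∈ S, ∀ s' ∈ S, hd s s' + 2 ≤ #R) ∧ #S = 2 * bs (2 * q) q := by
  refine ⟨R.powerset.filter (fun s => #(s.erase r) < q), ?_, ?_, ?_⟩
  · intro s hs
    exact mem_powerset.mp (mem_filter.mp hs).1
  · intro s hs s' hs'
    have h1 := (mem_filter.mp hs).2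
    have h2 := (mem_filter.mp hs').2
    have h3 := hd_le_erase r s s'
    have h4 := hd_le_add (s.erase r) (s'.erase r)
    omega
  · have hRr : #(R.erase r) = 2 * q := by rw [card_erase_of_mem hr, hR]; rfl
    have h := card_memberSubfamily_add_card_nonMemberSubfamily r
      (R.powerset.filter (fun s => #(s.erase r) < q))
    have e0 : (R.powerset.filter (fun s => #(s.erase r) < q)).nonMemberSubfamily r
        = (R.erase r).powerset.filter (fun s => #s < q) := by
      ext s
      simp only [mem_nonMemberSubfamily, mem_filter, mem_powerset, subset_erase]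
      constructor
      · rintro ⟨⟨h1, h2⟩, h3⟩
        rw [erase_eq_of_notMem h3] at h2
        exact ⟨⟨h1, h3⟩, h2⟩
      · rintro ⟨⟨h1, h3⟩, h2⟩
        refine ⟨⟨h1, ?_⟩, h3⟩
        rwa [erase_eq_of_notMem h3]
    have e1 : (R.powerset.filter (fun s => #(s.erase r) < q)).memberSubfamily r
        = (R.erase r).powerset.filter (fun s => #s < q) := by
      ext s
      simp only [mem_memberSubfamily, mem_filter, mem_powerset, subset_erase]
      constructor
      · rintro ⟨⟨h1, h2⟩, h3⟩
        rw [erase_insert h3] at h2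
        exact ⟨⟨(subset_insert r s).trans h1, h3⟩, h2⟩
      · rintro ⟨⟨h1, h3⟩, h2⟩
        refine ⟨⟨insert_subset hr h1, ?_⟩, h3⟩
        rwa [erase_insert h3]
    rw [e0, e1, card_small, hRr] at h
    omega

end CodimTwo
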