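import Pool.Agent.H.MP_602efc_co.Final

/-!
# The parity of the centre of a large family of even diameter
-/

namespace CodimTwo

open Finset
open scoped FinsetFamily

section general
variable {α : Type*} [DecidableEq α]

lemma hd_parity (A B : Finset α) : hd A B % 2 = (#A + #B) % 2 := by
  unfold hd
  have e1 := card_sdiff_add_card_inter A B
  have e2 := card_sdiff_add_card_inter B A
  rw [inter_comm B A] at e2
  omega

lemma card_image_erase_par (k : α) (𝒜 : Finset (Finset α)) (π : ℕ) (h : ∀ A ∈ 𝒜, #A % 2 = π) :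
    #(𝒜.image (fun A => A.erase k)) = #𝒜 := by
  apply card_image_of_injOn
  intro A hA B hB hAB
  simp only at hAB
  have hA' := h A hA
  have hB' := h B hB
  by_cases h1 : k ∈ A <;> by_cases h2 : k ∈ B
  · rw [← insert_erase h1, ← insert_erase h2, hAB]
  · exfalso
    rw [erase_eq_of_notMem h2] at hAB
    have := card_erase_add_one h1
    rw [hAB] at this
    omega
  · exfalso
    rw [erase_eq_of_notMem h1] at hAB
    have := card_erase_add_one h2
    rw [← hAB] at this
    omega
  · rwa [erase_eq_of_notMem h1, erase_eq_of_notMem h2] at hAB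

lemma image_erase_sub {v : Finset α} {k : α} {𝒜 : Finset (Finset α)} (hA : ∀ A ∈ 𝒜, A ⊆ v) :
    ∀ A ∈ 𝒜.image (fun A => A.erase k), A ⊆ v.erase k := by
  intro A hA0
  obtain ⟨B, hB, rfl⟩ := mem_image.mp hA0
  exact erase_subset_erase k (hA B hB)

theorem far_odd_par (q : ℕ) (v : Finset α) (hv : #v = 2 * q + 2) (𝒜 ℬ : Finset (Finset α))
    (hA : ∀ A ∈ 𝒜, A ⊆ v) (hB : ∀ B ∈ ℬ, B ⊆ v) (π π' : ℕ)
    (pA : ∀ A ∈ 𝒜, #A % 2 = π) (pB : ∀ B ∈ ℬ, #B % 2 = π')
    (hf : ∀ A ∈ 𝒜, ∀ B ∈ ℬ, hd A B + 3 ≤ #v) :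
    #𝒜 ≤ 2 * bs (2 * q) q ∨ #ℬ ≤ 2 * bs (2 * q) q := by
  obtain ⟨k, hk⟩ := card_pos.mp (show 0 < #v by omega)
  have hvk : #(v.erase k) = 2 * q + 1 := by rw [card_erase_of_mem hk, hv]; rfl
  have := far_odd q (v.erase k) hvk (𝒜.image (fun A => A.erase k)) (ℬ.image (fun A => A.erase k))
    (image_erase_sub hA) (image_erase_sub hB) (by
      intro A hA0 B hB0
      obtain ⟨A', hA', rfl⟩ := mem_image.mp hA0
      obtain ⟨B', hB', rfl⟩ := mem_image.mp hB0
      have h1 := hd_erase_le k A' B'
      have h2 := hf A' hA' B' hB'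
      omega)
  rwa [card_image_erase_par k 𝒜 π pA, card_image_erase_par k ℬ π' pB] at this

theorem far_even_par (p : ℕ) (v : Finset α) (hv : #v = 2 * p + 3) (𝒜 ℬ : Finset (Finset α))
    (hA : ∀ A ∈ 𝒜, A ⊆ v) (hB : ∀ B ∈ ℬ, B ⊆ v) (π π' : ℕ)
    (pA : ∀ A ∈ 𝒜, #A % 2 = π) (pB : ∀ B ∈ ℬ, #B % 2 = π')
    (hf : ∀ A ∈ 𝒜, ∀ B ∈ ℬ, hd A B + 3 ≤ #v)
    (h1 : 2 * bs (2 * p + 1) p ≤ #𝒜) (h2 : 2 * bs (2 * p + 1) p ≤ #ℬ)
    (h0 : 0 < #𝒜) (h0' : 0 < #ℬ) :
    #𝒜 + #ℬ ≤ 2 * bs (2 * p + 2) (p + 1) := by
  obtain ⟨k, hk⟩ := card_pos.mp (show 0 < #v by omega)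
  have hvk : #(v.erase k) = 2 * p + 2 := by rw [card_erase_of_mem hk, hv]; rfl
  have e1 := card_image_erase_par k 𝒜 π pA
  have e2 := card_image_erase_par k ℬ π' pB
  have := far_even p (v.erase k) hvk (𝒜.image (fun A => A.erase k)) (ℬ.image (fun A => A.erase k))
    (image_erase_sub hA) (image_erase_sub hB) (by
      intro A hA0 B hB0
      obtain ⟨A', hA', rfl⟩ := mem_image.mp hA0
      obtain ⟨B', hB', rfl⟩ := mem_image.mp hB0
      have h1 := hd_erase_le k A' B'
      have h2 := hf A' hA' B' hB'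
      omega) (by rw [e1]; exact h1) (by rw [e2]; exact h2) (by rw [e1]; exact h0)
      (by rw [e2]; exact h0')
  rwa [e1, e2] at this

lemma antipode_card {v : Finset α} {𝒜 : Finset (Finset α)} (hA : ∀ A ∈ 𝒜, A ⊆ v)
    (h : ∀ A ∈ 𝒜, ∀ B ∈ 𝒜, hd A B < #v) : 2 * #𝒜 ≤ 2 ^ #v := by
  have hinj : #(𝒜.image (fun B => v \ B)) = #𝒜 := by
    apply card_image_of_injOn
    intro B hB0 B' hB0' he
    simp only at he
    have := congrArg (fun C => v \ C) he
    simp only [Finset.sdiff_sdiff_eq_self (hA B hB0), Finset.sdiff_sdiff_eq_self (hA B' hB0')]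
      at this
    exact this
  have := disjoint_card_le (ℬ := 𝒜.image (fun B => v \ B)) hA (by
    intro B hB0
    obtain ⟨C, _, rfl⟩ := mem_image.mp hB0
    exact sdiff_subset) (by
    rw [disjoint_left]
    intro B hB hB'
    obtain ⟨C, hC, rfl⟩ := mem_image.mp hB'
    have h1 := hd_compl (hA _ hB) (hA C hC)
    rw [hd_self] at h1
    have h2 := h _ hB C hC
    omega)
  omega

/-- Splitting a count along the coordinate `j`. -/
lemma card_filter_split (j : α) (X : Finset (Finset α)) (P : Finset α → Prop) [DecidablePred P] :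
    #(X.filter P) = #((X.nonMemberSubfamily j).filter P)
      + #((X.memberSubfamily j).filter (fun s => P (insert j s))) := by
  rw [← card_memberSubfamily_add_card_nonMemberSubfamily j (X.filter P), add_comm]
  congr 2
  · ext s
    simp only [mem_nonMemberSubfamily, mem_filter]
    tauto
  · ext s
    simp only [mem_memberSubfamily, mem_filter]
    tauto

lemma compression_nonMember (j : α) (X : Finset (Finset α)) :
    (𝓓 j X).nonMemberSubfamily j = X.nonMemberSubfamily j ∪ X.memberSubfamily j := by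
  ext s
  rw [mem_nonMemberSubfamily, mem_union, mem_nonMemberSubfamily, mem_memberSubfamily,
    Down.mem_compression]
  constructor
  · rintro ⟨h | h, hj⟩
    · exact Or.inl ⟨h.1, hj⟩
    · exact Or.inr ⟨h.2, hj⟩
  · rintro (⟨h, hj⟩ | ⟨h, hj⟩)
    · exact ⟨Or.inl ⟨h, by rwa [erase_eq_of_notMem hj]⟩, hj⟩
    · by_cases hs : s ∈ X
      · exact ⟨Or.inl ⟨hs, by rwa [erase_eq_of_notMem hj]⟩, hj⟩
      · exact ⟨Or.inr ⟨hs, h⟩, hj⟩

lemma compression_member (j : α) (X : Finset (Finset α)) :
    (𝓓 j X).memberSubfamily j = X.nonMemberSubfamily j ∩ X.memberSubfamily j := by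
  ext s
  rw [mem_memberSubfamily, mem_inter, mem_nonMemberSubfamily, mem_memberSubfamily,
    Down.mem_compression]
  constructor
  · rintro ⟨⟨h1, h2⟩ | ⟨h1, h2⟩, hj⟩
    · rw [erase_insert hj] at h2
      exact ⟨⟨h2, hj⟩, h1, hj⟩
    · rw [insert_idem] at h2
      exact absurd h2 h1
  · rintro ⟨⟨h1, hj⟩, h2, _⟩
    exact ⟨Or.inl ⟨h2, by rwa [erase_insert hj]⟩, hj⟩

lemma compression_diam (j : α) (X : Finset (Finset α)) (D : ℕ)
    (h : ∀ x ∈ X, ∀ y ∈ X, hd x y ≤ D) : ∀ x ∈ 𝓓 j X, ∀ y ∈ 𝓓 j X, hd x y ≤ D := by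
  have mixed : ∀ x y, (x ∉ X ∧ insert j x ∈ X) → (y ∈ X ∧ y.erase j ∈ X) → hd x y ≤ D := by
    rintro x y ⟨hx1, hx2⟩ ⟨hy1, hy2⟩
    have hjx : j ∉ x := by
      intro hj
      rw [insert_eq_of_mem hj] at hx2
      exact hx1 hx2
    by_cases hjy : j ∈ y
    · have h1 := h _ hx2 _ hy2
      have h2 : hd x y = hd x (y.erase j) + 1 := by
        conv_lhs => rw [← insert_erase hjy]
        exact hd_insert_right hjx (notMem_erase j y)
      rw [hd_insert_left hjx (notMem_erase j y)] at h1
      omega
    · have h1 := h _ hx2 _ hy1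
      rw [hd_insert_left hjx hjy] at h1
      omega
  intro x hx y hy
  rw [Down.mem_compression] at hx hy
  rcases hx with hx | hx <;> rcases hy with hy | hy
  · exact h x hx.1 y hy.1
  · rw [hd_comm]; exact mixed y x hy hx
  · exact mixed x y hx hy
  · have hjx : j ∉ x := by
      intro hj
      rw [insert_eq_of_mem hj] at hx
      exact hx.1 hx.2
    have hjy : j ∉ y := by
      intro hj
      rw [insert_eq_of_mem hj] at hy
      exact hy.1 hy.2
    have h1 := h _ hx.2 _ hy.2
    rwa [hd_insert_insert hjx hjy] at h1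

lemma card_filter_union_inter (X Y : Finset (Finset α)) (P : Finset α → Prop) [DecidablePred P] :
    #((X ∪ Y).filter P) + #((X ∩ Y).filter P) = #(X.filter P) + #(Y.filter P) := by
  rw [filter_union, filter_inter_distrib, card_union_add_card_inter]

end general

/-- The property propagated by compressions: all coordinates have majority `0`, and the parity
class of `q` is the minority parity class. -/
structure Phi (n q : ℕ) (X : Finset (Finset (Fin n))) : Prop where
  diam : ∀ x ∈ X, ∀ y ∈ X, hd x y ≤ 2 * q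
  big : 4 * bs (2 * q) q < #X
  coord : ∀ j : Fin n, #(X.filter (fun x => j ∈ x)) ≤ 2 * bs (2 * q) q
  par : #(X.filter (fun x => #x % 2 = q % 2)) ≤ 2 * bs (2 * q) q

lemma phi_step (n p : ℕ) (hn : n = 2 * (p + 1) + 2) (X : Finset (Finset (Fin n))) (j : Fin n)
    (h : Phi n (p + 1) X) : Phi n (p + 1) (𝓓 j X) := by
  have hdiam' := compression_diam j X _ h.diam
  set X0 := X.nonMemberSubfamily j with hX0
  set X1 := X.memberSubfamily j with hX1
  set E : Finset (Fin n) → Prop := fun s => #s % 2 = (p + 1) % 2 with hE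
  have n0 := compression_nonMember j X
  have n1 := compression_member j X
  rw [← hX0, ← hX1] at n0 n1
  have m0 : ∀ s, s ∈ X0 ↔ s ∈ X ∧ j ∉ s := fun s => by rw [hX0, mem_nonMemberSubfamily]
  have m1 : ∀ s, s ∈ X1 ↔ insert j s ∈ X ∧ j ∉ s := fun s => by rw [hX1, mem_memberSubfamily]
  have hv : #((univ : Finset (Fin n)).erase j) = 2 * p + 3 := by
    rw [card_erase_of_mem (mem_univ j), card_univ, Fintype.card_fin]; omega
  have subv : ∀ s : Finset (Fin n), j ∉ s → s ⊆ (univ : Finset (Fin n)).erase j := by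
    intro s hs x hx
    rw [mem_erase]
    exact ⟨fun h => hs (h ▸ hx), mem_univ x⟩
  have subA : ∀ (P : Finset (Fin n) → Prop) [DecidablePred P], ∀ s ∈ X0.filter P,
      s ⊆ (univ : Finset (Fin n)).erase j := by
    intro P _ s hs
    exact subv s ((m0 s).mp (mem_filter.mp hs).1).2
  have subB : ∀ (P : Finset (Fin n) → Prop) [DecidablePred P], ∀ s ∈ X1.filter P,
      s ⊆ (univ : Finset (Fin n)).erase j := by
    intro P _ s hs
    exact subv s ((m1 s).mp (mem_filter.mp hs).1).2
  -- second isoperimetric fact for the two pairs of opposite corners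
  have cross : ∀ x ∈ X0, ∀ y ∈ X1, #x % 2 = #y % 2 →
      hd x y + 3 ≤ #((univ : Finset (Fin n)).erase j) := by
    intro x hx y hy hxy
    have h1 := (m0 x).mp hx
    have h2 := (m1 y).mp hy
    have h3 := h.diam x h1.1 _ h2.1
    rw [hd_insert_right h1.2 h2.2] at h3
    have h4 := hd_parity x y
    rw [hv]
    omega
  have hτ : ∀ π : ℕ, 2 * bs (2 * p + 1) p ≤ #(X0.filter (fun s => #s % 2 = π)) →
      2 * bs (2 * p + 1) p ≤ #(X1.filter (fun s => #s % 2 = π)) →
      0 < #(X0.filter (fun s => #s % 2 = π)) → 0 < #(X1.filter (fun s => #s % 2 = π)) →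
      #(X0.filter (fun s => #s % 2 = π)) + #(X1.filter (fun s => #s % 2 = π))
        ≤ 2 * bs (2 * p + 2) (p + 1) := by
    intro π h1 h2 h3 h4
    refine far_even_par p ((univ : Finset (Fin n)).erase j) hv _ _ (subA _) (subB _) π π
      (fun A hA => (mem_filter.mp hA).2) (fun A hA => (mem_filter.mp hA).2) ?_ h1 h2 h3 h4
    intro x hx y hy
    rw [mem_filter] at hx hy
    exact cross x hx.1 y hy.1 (hx.2.trans hy.2.symm)
  -- counts
  have cardsplit : ∀ (Z : Finset (Finset (Fin n))),
      #Z = #(Z.filter (fun s => #s % 2 = (p + 1) % 2)) + #(Z.filter (fun s => #s % 2 = p % 2)) := by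
    intro Z
    rw [← card_filter_add_card_filter_not (s := Z) (fun s => #s % 2 = (p + 1) % 2)]
    congr 2
    apply filter_congr
    intro s _
    omega
  have hEins : ∀ s ∈ X1, (#(insert j s) % 2 = (p + 1) % 2 ↔ #s % 2 = p % 2) := by
    intro s hs
    rw [card_insert_of_notMem ((m1 s).mp hs).2]
    omega
  have hparX : #(X.filter (fun x => #x % 2 = (p + 1) % 2))
      = #(X0.filter (fun s => #s % 2 = (p + 1) % 2)) + #(X1.filter (fun s => #s % 2 = p % 2)) := by
    rw [card_filter_split j X]
    congr 2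
    apply filter_congr
    intro s hs
    exact hEins s hs
  have hcardX : #X1 + #X0 = #X := card_memberSubfamily_add_card_nonMemberSubfamily j X
  have hcoordX : #(X.filter (fun x => j ∈ x)) = #X1 := by
    rw [card_filter_split j X]
    have h1 : (X.nonMemberSubfamily j).filter (fun x => j ∈ x) = ∅ := by
      rw [filter_eq_empty_iff]
      intro s hs
      rw [mem_nonMemberSubfamily] at hs
      exact hs.2
    have h2 : (X.memberSubfamily j).filter (fun s => j ∈ insert j s) = X.memberSubfamily j := by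
      rw [filter_eq_self]
      intro s _
      exact mem_insert_self j s
    rw [h1, h2, card_empty, zero_add]
  have hparX' : #((𝓓 j X).filter (fun x => #x % 2 = (p + 1) % 2))
      = #((X0 ∪ X1).filter (fun s => #s % 2 = (p + 1) % 2))
        + #((X0 ∩ X1).filter (fun s => #s % 2 = p % 2)) := by
    rw [card_filter_split j (𝓓 j X), n0, n1]
    congr 2
    apply filter_congr
    intro s hs
    exact hEins s (mem_inter.mp hs).2
  have hparX'2 : #((𝓓 j X).filter (fun x => #x % 2 = p % 2))
      = #((X0 ∪ X1).filter (fun s => #s % 2 = p % 2))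
        + #((X0 ∩ X1).filter (fun s => #s % 2 = (p + 1) % 2)) := by
    rw [card_filter_split j (𝓓 j X), n0, n1]
    congr 2
    apply filter_congr
    intro s hs
    rw [card_insert_of_notMem ((m1 s).mp (mem_inter.mp hs).2).2]
    omega
  have ui1 := card_filter_union_inter X0 X1 (fun s => #s % 2 = (p + 1) % 2)
  have ui2 := card_filter_union_inter X0 X1 (fun s => #s % 2 = p % 2)
  -- antipodal bound
  have hT : 2 * #(X0 ∪ X1) ≤ 2 ^ (2 * p + 3) := by
    rw [← hv]
    apply antipode_card
    · intro s hs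
      rw [mem_union] at hs
      rcases hs with hs | hs
      · exact subv s ((m0 s).mp hs).2
      · exact subv s ((m1 s).mp hs).2
    · intro x hx y hy
      rw [← n0] at hx hy
      rw [mem_nonMemberSubfamily] at hx hy
      have := hdiam' x hx.1 y hy.1
      rw [hv]; omega
  have hp4 : 2 ^ (2 * p + 3) = 8 * 4 ^ p := by
    rw [pow_add, pow_mul]; norm_num; ring
  have hb := b_eq p
  have sX0 := cardsplit X0
  have sX1 := cardsplit X1
  have sU := cardsplit (X0 ∪ X1)
  have hbq : bs (2 * (p + 1)) (p + 1) = bs (2 * p + 2) (p + 1) := by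
    rw [show 2 * (p + 1) = 2 * p + 2 by ring]
  -- first isoperimetric fact for the compressed family
  have hmin : #((𝓓 j X).filter (fun x => #x % 2 = (p + 1) % 2)) ≤ 2 * bs (2 * (p + 1)) (p + 1) ∨
      #((𝓓 j X).filter (fun x => #x % 2 = p % 2)) ≤ 2 * bs (2 * (p + 1)) (p + 1) := by
    refine far_odd_par (p + 1) (univ : Finset (Fin n)) (by rw [card_univ, Fintype.card_fin, hn])
      _ _ (fun _ _ => subset_univ _) (fun _ _ => subset_univ _) _ _
      (fun A hA => (mem_filter.mp hA).2) (fun A hA => (mem_filter.mp hA).2) ?_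
    intro x hx y hy
    rw [mem_filter] at hx hy
    have h3 := hdiam' x hx.1 y hy.1
    have h4 := hd_parity x y
    rw [card_univ, Fintype.card_fin]
    omega
  have hcj := h.coord j
  rw [hcoordX, hbq] at hcj
  have hpar := h.par
  rw [hparX, hbq] at hpar
  have hbig := h.big
  rw [hbq] at hbig
  have t1 := hτ ((p + 1) % 2)
  have t2 := hτ (p % 2)
  have mono1 : #(X0.filter (fun s => #s % 2 = p % 2))
      ≤ #((X0 ∪ X1).filter (fun s => #s % 2 = p % 2)) :=
    card_le_card (filter_subset_filter _ subset_union_left)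
  have mono2 : #(X1.filter (fun s => #s % 2 = (p + 1) % 2))
      ≤ #((X0 ∪ X1).filter (fun s => #s % 2 = (p + 1) % 2)) :=
    card_le_card (filter_subset_filter _ subset_union_right)
  have mono3 : #((X0 ∩ X1).filter (fun s => #s % 2 = p % 2))
      ≤ #(X1.filter (fun s => #s % 2 = p % 2)) :=
    card_le_card (filter_subset_filter _ inter_subset_right)
  have mono4 : #(X0.filter (fun s => #s % 2 = (p + 1) % 2))
      ≤ #((X0 ∪ X1).filter (fun s => #s % 2 = (p + 1) % 2)) :=
    card_le_card (filter_subset_filter _ subset_union_left)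
  refine ⟨hdiam', ?_, ?_, ?_⟩
  · rw [Down.card_compression]; exact h.big
  · intro k
    by_cases hkj : k = j
    · subst hkj
      have : #((𝓓 k X).filter (fun x => k ∈ x)) = #(X0 ∩ X1) := by
        rw [card_filter_split k (𝓓 k X), n0, n1]
        have h1 : (X0 ∪ X1).filter (fun x => k ∈ x) = ∅ := by
          rw [filter_eq_empty_iff]
          intro s hs
          rw [mem_union] at hs
          rcases hs with hs | hs
          · exact ((m0 s).mp hs).2
          · exact ((m1 s).mp hs).2
        have h2 : (X0 ∩ X1).filter (fun s => k ∈ insert k s) = X0 ∩ X1 := by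
          rw [filter_eq_self]
          intro s _
          exact mem_insert_self k s
        rw [h1, h2, card_empty, zero_add]
      rw [this, hbq]
      exact (card_le_card inter_subset_right).trans hcj
    · have e : #((𝓓 j X).filter (fun x => k ∈ x)) = #(X.filter (fun x => k ∈ x)) := by
        have hins : ∀ Z : Finset (Finset (Fin n)),
            Z.filter (fun s => k ∈ insert j s) = Z.filter (fun s => k ∈ s) := by
          intro Z
          apply filter_congr
          intro s _
          rw [mem_insert]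
          constructor
          · rintro (h | h)
            · exact absurd h hkj
            · exact h
          · exact Or.inr
        rw [card_filter_split j (𝓓 j X), card_filter_split j X, n0, n1, hins, hins]
        exact card_filter_union_inter X0 X1 _
      rw [e]; exact h.coord k
  · rw [hbq]
    rw [hbq, hparX', hparX'2] at hmin
    rw [hparX']
    clear_value X0 X1
    generalize #(X0.filter (fun s => #s % 2 = (p + 1) % 2)) = dD at *
    generalize #(X0.filter (fun s => #s % 2 = p % 2)) = aA at *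
    generalize #(X1.filter (fun s => #s % 2 = (p + 1) % 2)) = cC at *
    generalize #(X1.filter (fun s => #s % 2 = p % 2)) = bB at *
    generalize #((X0 ∪ X1).filter (fun s => #s % 2 = (p + 1) % 2)) = uU at *
    generalize #((X0 ∪ X1).filter (fun s => #s % 2 = p % 2)) = wW at *
    generalize #((X0 ∩ X1).filter (fun s => #s % 2 = (p + 1) % 2)) = iI at *
    generalize #((X0 ∩ X1).filter (fun s => #s % 2 = p % 2)) = kK at *
    generalize bs (2 * p + 1) p = τ at *
    generalize bs (2 * p + 2) (p + 1) = b at *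
    generalize (4 : ℕ) ^ p = T at *
    omega

end CodimTwo
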