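import Pool.Agent.H.MP_602efc_co.Center

/-!
# No family satisfies `Phi`; the parity of the centre
-/

namespace CodimTwo

open Finset
open scoped FinsetFamily

section
variable {α : Type*} [DecidableEq α]

lemma wsplit (j : α) (Z : Finset (Finset α)) :
    ∑ x ∈ Z, #x = (∑ s ∈ Z.nonMemberSubfamily j, #s + ∑ s ∈ Z.memberSubfamily j, #s)
      + #(Z.memberSubfamily j) := by
  rw [← sum_filter_add_sum_filter_not Z (fun x => j ∉ x), add_assoc]
  congr 1
  have h1 : ∑ s ∈ Z.memberSubfamily j, #s + #(Z.memberSubfamily j)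
      = ∑ s ∈ Z.memberSubfamily j, (#s + 1) := by
    rw [sum_add_distrib, card_eq_sum_ones]
  rw [h1, memberSubfamily, sum_image]
  · have : Z.filter (fun x => ¬ j ∉ x) = Z.filter (fun x => j ∈ x) := by
      apply filter_congr
      intro x _
      exact not_not
    rw [this]
    apply sum_congr rfl
    intro x hx
    exact (card_erase_add_one (mem_filter.mp hx).2).symm
  · intro x hx y hy hxy
    rw [mem_coe, mem_filter] at hx hy
    simp only at hxy
    rw [← insert_erase hx.2, ← insert_erase hy.2, hxy]

lemma weight_lt (j : α) (X : Finset (Finset α)) (x : Finset α) (hx : x ∈ X) (hj : j ∈ x)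
    (hnot : x.erase j ∉ X) : ∑ x ∈ 𝓓 j X, #x < ∑ x ∈ X, #x := by
  rw [wsplit j (𝓓 j X), wsplit j X, compression_nonMember, compression_member,
    sum_union_inter]
  apply Nat.add_lt_add_left
  apply card_lt_card
  refine ⟨inter_subset_right, ?_⟩
  intro hsub
  have h1 : x.erase j ∈ X.memberSubfamily j := by
    rw [mem_memberSubfamily, insert_erase hj]
    exact ⟨hx, notMem_erase j x⟩
  have h2 := (mem_inter.mp (hsub h1)).1
  rw [mem_nonMemberSubfamily] at h2
  exact hnot h2.1

end

theorem phi_false (n p : ℕ) (hn : n = 2 * (p + 1) + 2) :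
    ∀ N : ℕ, ∀ X : Finset (Finset (Fin n)), ∑ x ∈ X, #x = N → Phi n (p + 1) X → False := by
  intro N
  induction N using Nat.strong_induction_on with
  | _ N ih =>
    intro X hN h
    by_cases hdown : ∀ x ∈ X, ∀ j ∈ x, x.erase j ∈ X
    · exact final_false n (p + 1) hn X hdown h.diam h.big h.par
    · push Not at hdown
      obtain ⟨x, hx, j, hj, hnot⟩ := hdown
      have hlt := weight_lt j X x hx hj hnot
      exact ih _ (by omega) (𝓓 j X) rfl (phi_step n p hn X j h)

end CodimTwo
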