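import Pool.Agent.H.MP_602efc_co.Iso

/-!
# Consequences of the isoperimetric inequality for families at small mutual distance
-/

namespace CodimTwo

open Finset

variable {α : Type*} [DecidableEq α]

lemma bs_half (p : ℕ) : bs (2 * p + 1) (p + 1) = 4 ^ p := by
  unfold bs; exact Nat.sum_range_choose_halfway p

lemma bs_even (q : ℕ) : bs (2 * q) (q + 1) + bs (2 * q) q = 4 ^ q := by
  rw [← bs_pascal, bs_half]

lemma hd_le_card {u A B : Finset α} (hA : A ⊆ u) (hB : B ⊆ u) : hd A B ≤ #u := by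
  unfold hd
  rw [← card_union_of_disjoint]
  · apply card_le_card
    apply union_subset
    · exact sdiff_subset.trans hA
    · exact sdiff_subset.trans hB
  · rw [disjoint_left]
    intro x hx hx'
    simp only [mem_sdiff] at hx hx'
    exact hx.2 hx'.1

lemma hd_compl {u A B : Finset α} (hA : A ⊆ u) (hB : B ⊆ u) :
    hd A (u \ B) + hd A B = #u := by
  unfold hd
  have h1 : A \ (u \ B) = A ∩ B := by
    ext x; simp only [mem_sdiff, mem_inter]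
    constructor
    · rintro ⟨h, h'⟩
      exact ⟨h, by by_contra h2; exact h' ⟨hA h, h2⟩⟩
    · rintro ⟨h, h'⟩
      exact ⟨h, fun h2 => h2.2 h'⟩
  have h2 : (u \ B) \ A = u \ (A ∪ B) := by
    ext x; simp only [mem_sdiff, mem_union]; tauto
  rw [h1, h2]
  have e1 := card_sdiff_add_card_inter A B
  have e2 := card_sdiff_add_card_inter B A
  have e3 := card_union_add_card_inter A B
  have e4 : #(u \ (A ∪ B)) + #(A ∪ B) = #u := card_sdiff_add_card_eq_card (union_subset hA hB)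
  have e5 : #(B ∩ A) = #(A ∩ B) := by rw [inter_comm]
  omega

lemma hd_erase_le (k : α) (A B : Finset α) : hd (A.erase k) (B.erase k) ≤ hd A B := by
  unfold hd
  apply Nat.add_le_add
  · apply card_le_card
    intro x hx
    simp only [mem_sdiff, mem_erase] at hx ⊢
    exact ⟨hx.1.2, fun h => hx.2 ⟨hx.1.1, h⟩⟩
  · apply card_le_card
    intro x hx
    simp only [mem_sdiff, mem_erase] at hx ⊢
    exact ⟨hx.1.2, fun h => hx.2 ⟨hx.1.1, h⟩⟩

/-- First consequence: in odd dimension `2q+1`, two families at mutual distance at most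
`2q-1` cannot both have more than `2 s(2q,q)` members. -/
theorem far_odd (q : ℕ) (u : Finset α) (hu : #u = 2 * q + 1) (𝒜 ℬ : Finset (Finset α))
    (hA : ∀ A ∈ 𝒜, A ⊆ u) (hB : ∀ B ∈ ℬ, B ⊆ u)
    (hf : ∀ A ∈ 𝒜, ∀ B ∈ ℬ, hd A B + 2 ≤ #u) :
    #𝒜 ≤ 2 * bs (2 * q) q ∨ #ℬ ≤ 2 * bs (2 * q) q := by
  by_contra hcon
  push Not at hcon
  obtain ⟨h1, h2⟩ := hcon
  have hinj : #(ℬ.image (fun B => u \ B)) = #ℬ := by
    apply card_image_of_injOn
    intro B hB0 B' hB0' he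
    simp only at he
    have := congrArg (fun C => u \ C) he
    simp only [Finset.sdiff_sdiff_eq_self (hB B hB0), Finset.sdiff_sdiff_eq_self (hB B' hB0')] at this
    exact this
  obtain ⟨r, hr, hle⟩ := iso (2 * q) u hu 𝒜 (ℬ.image (fun B => u \ B)) hA
    (by
      intro B hB0
      obtain ⟨C, _, rfl⟩ := mem_image.mp hB0
      exact sdiff_subset)
    (by
      intro A hA0 B hB0
      obtain ⟨C, hC, rfl⟩ := mem_image.mp hB0
      have h3 := hd_compl (hA A hA0) (hB C hC)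
      have h4 := hf A hA0 C hC
      omega)
    (by omega)
  rw [hinj] at hle
  have h5 : (2 * (bs (2 * q) q : ℚ)) ≤ (#𝒜 : ℚ) := by exact_mod_cast h1.le
  have h6 := ell_mono (2 * q) r hr h5
  have h7 := ell_min (2 * q) q (2 * (bs (2 * q) q : ℚ)) le_rfl
    (by have : (bs (2 * q) q : ℚ) ≤ bs (2 * q) (q + 1) := by exact_mod_cast bs_mono _ (by omega)
        linarith) r
  have h8 : ell (2 * q) q (2 * (bs (2 * q) q : ℚ)) = 2 * (bs (2 * q) (q + 1) : ℚ) := by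
    unfold ell; ring
  have h9 : (bs (2 * q) (q + 1) : ℚ) + bs (2 * q) q = 4 ^ q := by exact_mod_cast bs_even q
  have h10 : (2 : ℚ) ^ (2 * q + 1) = 2 * 4 ^ q := by
    rw [pow_succ, pow_mul]; norm_num; ring
  have h11 : (2 * (bs (2 * q) q : ℚ)) < (#ℬ : ℚ) := by exact_mod_cast h2
  rw [h10] at hle
  linarith

/-- The threshold `τ = 2 s(2p+1,p)`. -/
lemma b_eq (p : ℕ) : 2 * bs (2 * p + 2) (p + 1) = 2 * 4 ^ p + 2 * bs (2 * p + 1) p := by
  have := bs_pascal (2 * p + 1) p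
  rw [bs_half] at this
  rw [show 2 * p + 2 = 2 * p + 1 + 1 by ring, this]; ring

/-- Second consequence, in even dimension `2p+2`. -/
theorem far_even_aux (p : ℕ) (u : Finset α) (hu : #u = 2 * p + 2) (𝒜 ℬ : Finset (Finset α))
    (hA : ∀ A ∈ 𝒜, A ⊆ u) (hB : ∀ B ∈ ℬ, B ⊆ u)
    (hf : ∀ A ∈ 𝒜, ∀ B ∈ ℬ, hd A B + 2 ≤ #u)
    (h0 : 0 < #𝒜) (h1 : 2 * bs (2 * p + 1) p ≤ #𝒜) (h2 : #𝒜 ≤ #ℬ) :
    #𝒜 + #ℬ ≤ 2 * bs (2 * p + 2) (p + 1) := by
  have hinj : #(ℬ.image (fun B => u \ B)) = #ℬ := by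
    apply card_image_of_injOn
    intro B hB0 B' hB0' he
    simp only at he
    have := congrArg (fun C => u \ C) he
    simp only [Finset.sdiff_sdiff_eq_self (hB B hB0), Finset.sdiff_sdiff_eq_self (hB B' hB0')] at this
    exact this
  have hsub : ∀ B ∈ ℬ.image (fun B => u \ B), B ⊆ u := by
    intro B hB0
    obtain ⟨C, _, rfl⟩ := mem_image.mp hB0
    exact sdiff_subset
  have hfar : ∀ A ∈ 𝒜, ∀ B ∈ ℬ.image (fun B => u \ B), 2 ≤ hd A B := by
    intro A hA0 B hB0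
    obtain ⟨C, hC, rfl⟩ := mem_image.mp hB0
    have h3 := hd_compl (hA A hA0) (hB C hC)
    have h4 := hf A hA0 C hC
    omega
  have hdis : Disjoint 𝒜 (ℬ.image (fun B => u \ B)) := by
    rw [disjoint_left]
    intro X hX hX'
    have := hfar X hX X hX'
    rw [hd_self] at this; omega
  have hsum := disjoint_card_le hA hsub hdis
  rw [hinj, hu] at hsum
  obtain ⟨r, hr, hle⟩ := iso (2 * p + 1) u hu 𝒜 (ℬ.image (fun B => u \ B)) hA hsub hfar h0
  rw [hinj] at hle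
  have hp4 : 2 ^ (2 * p + 2) = 4 * 4 ^ p := by
    rw [pow_add, pow_mul]; norm_num; ring
  have h5 : 2 * (bs (2 * p + 1) p : ℚ) ≤ (#𝒜 : ℚ) := by exact_mod_cast h1
  have h6 : (#𝒜 : ℚ) ≤ 2 * (bs (2 * p + 1) (p + 1) : ℚ) := by
    rw [bs_half]
    have : #𝒜 ≤ 2 * 4 ^ p := by omega
    exact_mod_cast this
  have h7 := ell_min (2 * p + 1) p _ h5 h6 r
  have h8 : ell (2 * p + 1) p (#𝒜 : ℚ)
      = 2 * 4 ^ p + ((#𝒜 : ℚ) - 2 * (bs (2 * p + 1) p : ℚ)) := by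
    unfold ell
    rw [bs_half]
    have hp : ((p : ℚ) + 1) ≠ 0 := by positivity
    push_cast
    field_simp
    ring
  have h9 : (2 : ℚ) ^ (2 * p + 1 + 1) = 4 * 4 ^ p := by exact_mod_cast hp4
  have h10 : (2 * (bs (2 * p + 2) (p + 1) : ℚ)) = 2 * 4 ^ p + 2 * (bs (2 * p + 1) p : ℚ) := by
    exact_mod_cast b_eq p
  rw [h9] at hle
  have : ((#𝒜 : ℚ) + #ℬ) ≤ 2 * (bs (2 * p + 2) (p + 1) : ℚ) := by
    rw [h10]; linarith
  exact_mod_cast this

theorem far_even (p : ℕ) (u : Finset α) (hu : #u = 2 * p + 2) (𝒜 ℬ : Finset (Finset α))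
    (hA : ∀ A ∈ 𝒜, A ⊆ u) (hB : ∀ B ∈ ℬ, B ⊆ u)
    (hf : ∀ A ∈ 𝒜, ∀ B ∈ ℬ, hd A B + 2 ≤ #u)
    (h1 : 2 * bs (2 * p + 1) p ≤ #𝒜) (h2 : 2 * bs (2 * p + 1) p ≤ #ℬ)
    (h0 : 0 < #𝒜) (h0' : 0 < #ℬ) :
    #𝒜 + #ℬ ≤ 2 * bs (2 * p + 2) (p + 1) := by
  rcases le_total (#𝒜) (#ℬ) with h | h
  · exact far_even_aux p u hu 𝒜 ℬ hA hB hf h0 h1 h
  · rw [add_comm]
    exact far_even_aux p u hu ℬ 𝒜 hB hA
      (fun A hA0 B hB0 => by rw [hd_comm]; exact hf B hB0 A hA0) h0' h2 h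

end CodimTwo
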