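import Mathlib

/-!
# Katona's shadow bound for `2`-intersecting uniform families

If `V` is a family of `(k+1)`-sets any two members of which share at least two elements
then `(k+1) #V ≤ k #∂V`.
-/

namespace CodimTwo

open Finset UV
open scoped FinsetFamily

variable {M : ℕ}

/-- Left-shifted families. -/
def Shifted (V : Finset (Finset (Fin M))) : Prop :=
  ∀ v ∈ V, ∀ i j : Fin M, i < j → i ∉ v → j ∈ v → insert i (v.erase j) ∈ V

/-- Double counting: the local bound in a small ground set. -/
lemma local_bound (N k : ℕ) (V : Finset (Finset (Fin M))) (hk : ∀ v ∈ V, #v = k + 1)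
    (hN : ∀ v ∈ V, ∀ a ∈ v, (a : ℕ) < N) (hNk : N ≤ 2 * k) :
    (k + 1) * #V ≤ k * #(∂ V) := by
  have key : #V * (k + 1) ≤ #(∂ V) * k := by
    refine card_mul_le_card_mul (fun (v : Finset (Fin M)) (w : Finset (Fin M)) => w ⊆ v) ?_ ?_
    · intro v hv
      rw [← hk v hv]
      have hinj : #(v.image (fun a => v.erase a)) = #v := by
        apply card_image_of_injOn
        intro a ha b hb hab
        simp only at hab
        by_contra hne
        have : b ∈ v.erase a := mem_erase.mpr ⟨fun h => hne h.symm, hb⟩
        rw [hab] at this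
        exact (notMem_erase b v) this
      rw [← hinj]
      apply card_le_card
      intro w hw
      obtain ⟨a, ha, rfl⟩ := mem_image.mp hw
      rw [mem_bipartiteAbove]
      exact ⟨erase_mem_shadow hv ha, erase_subset _ _⟩
    · intro w hw
      -- supersets of `w` in `V`
      obtain ⟨v0, hv0, a0, ha0, hw0⟩ := mem_shadow_iff.mp hw
      have hwk : #w = k := by
        rw [← hw0, card_erase_of_mem ha0, hk v0 hv0]; rfl
      have hwN : ∀ a ∈ w, (a : ℕ) < N := by
        intro a ha
        rw [← hw0] at ha
        exact hN v0 hv0 a (mem_of_mem_erase ha)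
      have hsub : bipartiteBelow (fun (v : Finset (Fin M)) (w : Finset (Fin M)) => w ⊆ v) V w
          ⊆ (univ.filter (fun a : Fin M => (a : ℕ) < N ∧ a ∉ w)).image (fun a => insert a w) := by
        intro v hv
        rw [mem_bipartiteBelow] at hv
        obtain ⟨hvV, hwv⟩ := hv
        have hc : #(v \ w) = 1 := by
          rw [card_sdiff_of_subset hwv, hk v hvV, hwk]; omega
        obtain ⟨a, ha⟩ := card_eq_one.mp hc
        have hav : a ∈ v \ w := by rw [ha]; exact mem_singleton_self a
        rw [mem_sdiff] at hav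
        refine mem_image.mpr ⟨a, ?_, ?_⟩
        · simp only [mem_filter, mem_univ, true_and]
          exact ⟨hN v hvV a hav.1, hav.2⟩
        · rw [← sdiff_union_of_subset hwv, ha, singleton_union]
      refine (card_le_card hsub).trans (card_image_le.trans ?_)
      have h1 : #(univ.filter (fun a : Fin M => (a : ℕ) < N ∧ a ∉ w)) + #w
          ≤ #(univ.filter (fun a : Fin M => (a : ℕ) < N)) := by
        rw [← card_union_of_disjoint]
        · apply card_le_card
          intro a ha
          rw [mem_union] at ha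
          simp only [mem_filter, mem_univ, true_and] at ha ⊢
          rcases ha with ha | ha
          · exact ha.1
          · exact hwN a ha
        · rw [disjoint_left]
          intro a ha
          simp only [mem_filter, mem_univ, true_and] at ha
          exact ha.2
      have h2 : #(univ.filter (fun a : Fin M => (a : ℕ) < N)) ≤ N := by
        have : #((univ.filter (fun a : Fin M => (a : ℕ) < N)).image (fun a : Fin M => (a : ℕ)))
            = #(univ.filter (fun a : Fin M => (a : ℕ) < N)) :=
          card_image_of_injective _ Fin.val_injective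
        rw [← this]
        calc _ ≤ #(range N) := by
              apply card_le_card
              intro x hx
              obtain ⟨a, ha, rfl⟩ := mem_image.mp hx
              simp only [mem_filter, mem_univ, true_and] at ha
              exact mem_range.mpr ha
          _ = N := card_range N
      omega
  rw [mul_comm, mul_comm k]
  exact key

lemma exists_small (N : ℕ) (hNM : N < M) (s : Finset (Fin M)) (hs : #s < N) :
    ∃ i : Fin M, (i : ℕ) < N ∧ i ∉ s := by
  by_contra hcon
  push Not at hcon
  have h1 : #(univ.filter (fun a : Fin M => (a : ℕ) < N)) ≤ #s := by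
    apply card_le_card
    intro a ha
    simp only [mem_filter, mem_univ, true_and] at ha
    exact hcon a ha
  have h2 : #((range N).attach.image (fun x => (⟨x.1, lt_trans (mem_range.mp x.2) hNM⟩ : Fin M)))
      = N := by
    rw [card_image_of_injective, card_attach, card_range]
    intro x y hxy
    simp only [Fin.mk.injEq] at hxy
    exact Subtype.ext hxy
  have h3 : ((range N).attach.image (fun x => (⟨x.1, lt_trans (mem_range.mp x.2) hNM⟩ : Fin M)))
      ⊆ univ.filter (fun a : Fin M => (a : ℕ) < N) := by
    intro a ha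
    obtain ⟨x, _, rfl⟩ := mem_image.mp ha
    simp only [mem_filter, mem_univ, true_and]
    exact mem_range.mp x.2
  have h4 := card_le_card h3
  omega

theorem katona_shifted : ∀ (N k : ℕ) (V : Finset (Finset (Fin M))), (∀ v ∈ V, #v = k + 1) →
    (∀ v ∈ V, ∀ w ∈ V, 2 ≤ #(v ∩ w)) → (∀ v ∈ V, ∀ a ∈ v, (a : ℕ) < N) → Shifted V →
    (k + 1) * #V ≤ k * #(∂ V) := by
  intro N
  induction N with
  | zero =>
    intro k V hk _ hN _
    exact local_bound 0 k V hk hN (by omega)
  | succ N ih =>
    intro k V hk h2 hN hS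
    rcases Nat.lt_or_ge (2 * k) (N + 1) with hlt | hge
    swap
    · exact local_bound (N + 1) k V hk hN hge
    rcases Nat.lt_or_ge N M with hNM | hNM
    swap
    · refine ih k V hk h2 ?_ hS
      intro v hv a ha
      exact lt_of_lt_of_le a.2 hNM
    -- the case `k = 0`
    rcases Nat.eq_zero_or_pos k with hk0 | hkpos
    · have : V = ∅ := by
        rw [eq_empty_iff_forall_notMem]
        intro v hv
        have h3 := h2 v hv v hv
        rw [inter_self, hk v hv] at h3
        omega
      rw [this]; simp
    obtain ⟨k', rfl⟩ : ∃ k', k = k' + 1 := ⟨k - 1, by omega⟩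
    set e : Fin M := ⟨N, hNM⟩ with he
    have heN : (e : ℕ) = N := rfl
    set V0 := V.nonMemberSubfamily e with hV0
    set V1 := V.memberSubfamily e with hV1
    have m0 : ∀ v, v ∈ V0 ↔ v ∈ V ∧ e ∉ v := fun v => by rw [hV0, mem_nonMemberSubfamily]
    have m1 : ∀ v, v ∈ V1 ↔ insert e v ∈ V ∧ e ∉ v := fun v => by rw [hV1, mem_memberSubfamily]
    have lt_e : ∀ a : Fin M, (a : ℕ) < N + 1 → a ≠ e → (a : ℕ) < N := by
      intro a ha hne
      have : (a : ℕ) ≠ N := fun h => hne (Fin.ext (by rw [h]))
      omega
    -- V0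
    have i0 : (k' + 1 + 1) * #V0 ≤ (k' + 1) * #(∂ V0) := by
      refine ih (k' + 1) V0 ?_ ?_ ?_ ?_
      · intro v hv; exact hk v ((m0 v).mp hv).1
      · intro v hv w hw; exact h2 v ((m0 v).mp hv).1 w ((m0 w).mp hw).1
      · intro v hv a ha
        exact lt_e a (hN v ((m0 v).mp hv).1 a ha) (fun h => ((m0 v).mp hv).2 (h ▸ ha))
      · intro v hv i j hij hi hj
        rw [m0] at hv ⊢
        refine ⟨hS v hv.1 i j hij hi hj, ?_⟩
        rw [mem_insert, mem_erase]
        rintro (h | ⟨_, h⟩)
        · have h5 := hN v hv.1 j hj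
          have h6 : (i : ℕ) < j := hij
          rw [← h, heN] at h6
          omega
        · exact hv.2 h
    -- V1
    have i1 : (k' + 1) * #V1 ≤ k' * #(∂ V1) := by
      refine ih k' V1 ?_ ?_ ?_ ?_
      · intro v hv
        have h3 := hk _ ((m1 v).mp hv).1
        rw [card_insert_of_notMem ((m1 v).mp hv).2] at h3
        omega
      · intro v hv w hw
        by_contra hlt2
        push Not at hlt2
        have hv' := (m1 v).mp hv
        have hw' := (m1 w).mp hw
        have h3 := h2 _ hv'.1 _ hw'.1
        rw [← insert_inter_distrib, card_insert_of_notMem (by simp [hv'.2])] at h3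
        have hcv := hk _ hv'.1
        rw [card_insert_of_notMem hv'.2] at hcv
        have hcw := hk _ hw'.1
        rw [card_insert_of_notMem hw'.2] at hcw
        have hun := card_union_add_card_inter v w
        obtain ⟨i, hiN, hi⟩ := exists_small N hNM (v ∪ w) (by omega)
        rw [mem_union, not_or] at hi
        have hie : i ≠ e := fun h => by rw [h, heN] at hiN; omega
        have hiw : i ∉ insert e w := by
          rw [mem_insert, not_or]; exact ⟨hie, hi.2⟩
        have h4 := hS _ hw'.1 i e (by rw [Fin.lt_def, heN]; exact hiN) hiw (mem_insert_self _ _)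
        rw [erase_insert hw'.2] at h4
        have h5 := h2 _ hv'.1 _ h4
        have h6 : insert e v ∩ insert i w = v ∩ w := by
          ext x
          simp only [mem_inter, mem_insert]
          constructor
          · rintro ⟨h | h, h' | h'⟩
            · exact absurd (h'.symm.trans h) hie
            · exact absurd (h ▸ h') hw'.2
            · exact absurd (h' ▸ h) hi.1
            · exact ⟨h, h'⟩
          · rintro ⟨h, h'⟩; exact ⟨Or.inr h, Or.inr h'⟩
        rw [h6] at h5
        omega
      · intro v hv a ha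
        have hv' := (m1 v).mp hv
        exact lt_e a (hN _ hv'.1 a (mem_insert_of_mem ha)) (fun h => hv'.2 (h ▸ ha))
      · intro v hv i j hij hi hj
        rw [m1] at hv ⊢
        have hje : j ≠ e := fun h => hv.2 (h ▸ hj)
        have hjN := lt_e j (hN _ hv.1 j (mem_insert_of_mem hj)) hje
        have hie : i ≠ e := by
          intro h
          have h6 : (i : ℕ) < j := hij
          rw [h, heN] at h6
          omega
        constructor
        · have h4 := hS _ hv.1 i j hij (by rw [mem_insert, not_or]; exact ⟨hie, hi⟩)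
            (mem_insert_of_mem hj)
          rw [erase_insert_of_ne (fun h => hje h.symm)] at h4
          rwa [insert_comm] at h4
        · rw [mem_insert, mem_erase, not_or]
          exact ⟨fun h => hie h.symm, fun h => hv.2 h.2⟩
    -- shadows
    have hshadow : #(∂ V0) + #(∂ V1) ≤ #(∂ V) := by
      have himg : #((∂ V1).image (insert e)) = #(∂ V1) := by
        apply card_image_of_injOn
        intro w hw w' hw' hww
        have hn : ∀ w ∈ ∂ V1, e ∉ w := by
          intro w hw
          obtain ⟨v, hv, a, ha, rfl⟩ := mem_shadow_iff.mp hw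
          intro h
          exact ((m1 v).mp hv).2 (mem_of_mem_erase h)
        have := congrArg (fun s => s.erase e) hww
        simp only [erase_insert (hn w hw), erase_insert (hn w' hw')] at this
        exact this
      rw [← himg, ← card_union_of_disjoint]
      · apply card_le_card
        intro w hw
        rw [mem_union] at hw
        rcases hw with hw | hw
        · exact shadow_mono (fun v hv => ((m0 v).mp hv).1) hw
        · obtain ⟨w', hw', rfl⟩ := mem_image.mp hw
          obtain ⟨v, hv, a, ha, rfl⟩ := mem_shadow_iff.mp hw'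
          have hv' := (m1 v).mp hv
          have hae : a ≠ e := fun h => hv'.2 (h ▸ ha)
          rw [← erase_insert_of_ne (fun h => hae h.symm)]
          exact erase_mem_shadow hv'.1 (mem_insert_of_mem ha)
      · rw [disjoint_left]
        intro w hw hw'
        obtain ⟨v, hv, a, ha, rfl⟩ := mem_shadow_iff.mp hw
        obtain ⟨w', _, hw''⟩ := mem_image.mp hw'
        have : e ∈ v.erase a := by rw [← hw'']; exact mem_insert_self _ _
        exact ((m0 v).mp hv).2 (mem_of_mem_erase this)
    have hcard : #V1 + #V0 = #V := card_memberSubfamily_add_card_nonMemberSubfamily e V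
    have i1' : (k' + 1 + 1) * #V1 ≤ (k' + 1) * #(∂ V1) := by
      have h3 : #V1 ≤ #(∂ V1) := by
        have : (k' + 1) * #V1 ≤ (k' + 1) * #(∂ V1) :=
          i1.trans (Nat.mul_le_mul_right _ (by omega))
        exact Nat.le_of_mul_le_mul_left this (by omega)
      nlinarith
    calc (k' + 1 + 1) * #V = (k' + 1 + 1) * #V1 + (k' + 1 + 1) * #V0 := by rw [← hcard]; ring
      _ ≤ (k' + 1) * #(∂ V1) + (k' + 1) * #(∂ V0) := Nat.add_le_add i1' i0
      _ = (k' + 1) * (#(∂ V0) + #(∂ V1)) := by ring
      _ ≤ (k' + 1) * #(∂ V) := Nat.mul_le_mul_left _ hshadow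

/-- The compression replacing `j` by `i`. -/
lemma compress_single {i j : Fin M} (hij : i ≠ j) (v : Finset (Fin M)) :
    compress {i} {j} v = if i ∉ v ∧ j ∈ v then insert i (v.erase j) else v := by
  unfold compress
  by_cases h : i ∉ v ∧ j ∈ v
  · rw [if_pos h, if_pos]
    · ext x
      simp only [sup_eq_union, mem_sdiff, mem_union, mem_singleton, mem_insert, mem_erase]
      constructor
      · rintro ⟨h1 | h1, h2⟩
        · exact Or.inr ⟨h2, h1⟩
        · exact Or.inl h1
      · rintro (h1 | ⟨h1, h2⟩)
        · exact ⟨Or.inr h1, by rw [h1]; exact hij⟩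
        · exact ⟨Or.inl h2, h1⟩
    · exact ⟨disjoint_singleton_left.mpr h.1, singleton_subset_iff.mpr h.2⟩
  · rw [if_neg h, if_neg]
    rintro ⟨h1, h2⟩
    exact h ⟨disjoint_singleton_left.mp h1, singleton_subset_iff.mp h2⟩

lemma inter_aux1 {i j : Fin M} (hij : i ≠ j) (b y : Finset (Fin M)) (hib : i ∉ b) (hjb : j ∈ b)
    (hy : ¬ (i ∉ y ∧ j ∈ y)) : #(b ∩ y) ≤ #(insert i (b.erase j) ∩ y) := by
  by_cases hiy : i ∈ y
  · -- replace `j` by `i`
    have h1 : insert i ((b ∩ y).erase j) ⊆ insert i (b.erase j) ∩ y := by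
      intro x hx
      rw [mem_insert, mem_erase, mem_inter] at hx
      rw [mem_inter, mem_insert, mem_erase]
      rcases hx with hx | ⟨h, h', h''⟩
      · exact ⟨Or.inl hx, by rw [hx]; exact hiy⟩
      · exact ⟨Or.inr ⟨h, h'⟩, h''⟩
    have h2 := card_le_card h1
    rw [card_insert_of_notMem (by simp [hib])] at h2
    have h3 := pred_card_le_card_erase (s := b ∩ y) (a := j)
    omega
  · have hjy : j ∉ y := fun h => hy ⟨hiy, h⟩
    apply card_le_card
    intro x hx
    rw [mem_inter] at hx
    rw [mem_inter, mem_insert, mem_erase]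
    exact ⟨Or.inr ⟨fun h => hjy (h ▸ hx.2), hx.1⟩, hx.2⟩

lemma inter_aux2 {i j : Fin M} (hij : i ≠ j) (b y : Finset (Fin M)) (hib : i ∉ b) (hjb : j ∈ b)
    (hiy : i ∉ y) (hjy : j ∈ y) :
    #(b ∩ insert i (y.erase j)) = #(insert i (b.erase j) ∩ y) := by
  congr 1
  ext x
  simp only [mem_inter, mem_insert, mem_erase]
  constructor
  · rintro ⟨h, h' | ⟨h', h''⟩⟩
    · exact absurd (h' ▸ h) hib
    · exact ⟨Or.inr ⟨h', h⟩, h''⟩
  · rintro ⟨h | ⟨h, h'⟩, h''⟩
    · exact absurd (h ▸ h'') hiy
    · exact ⟨h', Or.inr ⟨h, h''⟩⟩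

lemma inter_aux3 {i j : Fin M} (hij : i ≠ j) (b y : Finset (Fin M)) (hib : i ∉ b) (hjb : j ∈ b)
    (hiy : i ∉ y) (hjy : j ∈ y) :
    #(b ∩ y) ≤ #(insert i (b.erase j) ∩ insert i (y.erase j)) := by
  have h1 : insert i ((b ∩ y).erase j) ⊆ insert i (b.erase j) ∩ insert i (y.erase j) := by
    intro x hx
    rw [mem_insert, mem_erase, mem_inter] at hx
    rw [mem_inter, mem_insert, mem_erase, mem_insert, mem_erase]
    rcases hx with hx | ⟨h, h', h''⟩
    · exact ⟨Or.inl hx, Or.inl hx⟩
    · exact ⟨Or.inr ⟨h, h'⟩, Or.inr ⟨h, h''⟩⟩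
  have h2 := card_le_card h1
  rw [card_insert_of_notMem (by simp [hib])] at h2
  have h3 := pred_card_le_card_erase (s := b ∩ y) (a := j)
  omega

lemma compression_inter {i j : Fin M} (hij : i ≠ j) (V : Finset (Finset (Fin M)))
    (h2 : ∀ v ∈ V, ∀ w ∈ V, 2 ≤ #(v ∩ w)) :
    ∀ v ∈ 𝓒 {i} {j} V, ∀ w ∈ 𝓒 {i} {j} V, 2 ≤ #(v ∩ w) := by
  -- one member new, one member old
  have mixed : ∀ v w, (v ∉ V ∧ ∃ b ∈ V, compress {i} {j} b = v) →
      (w ∈ V ∧ compress {i} {j} w ∈ V) → 2 ≤ #(v ∩ w) := by
    rintro v w ⟨hv, b, hb, hbv⟩ ⟨hw, hw'⟩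
    rw [compress_single hij] at hbv
    split_ifs at hbv with hc
    swap
    · exact absurd (hbv ▸ hb) hv
    rw [compress_single hij] at hw'
    split_ifs at hw' with hc'
    · rw [← hbv, ← inter_aux2 hij b w hc.1 hc.2 hc'.1 hc'.2]
      exact h2 b hb _ hw'
    · rw [← hbv]
      exact (h2 b hb w hw).trans (inter_aux1 hij b w hc.1 hc.2 hc')
  intro v hv w hw
  rw [mem_compression] at hv hw
  rcases hv with hv | hv <;> rcases hw with hw | hw
  · exact h2 v hv.1 w hw.1
  · rw [inter_comm]; exact mixed w v hw hv
  · exact mixed v w hv hw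
  · obtain ⟨hv0, b, hb, hbv⟩ := hv
    obtain ⟨hw0, c, hc, hcw⟩ := hw
    rw [compress_single hij] at hbv hcw
    split_ifs at hbv with h1
    swap
    · exact absurd (hbv ▸ hb) hv0
    split_ifs at hcw with h3
    swap
    · exact absurd (hcw ▸ hc) hw0
    rw [← hbv, ← hcw]
    exact (h2 b hb c hc).trans (inter_aux3 hij b c h1.1 h1.2 h3.1 h3.2)

/-- Total weight of a family. -/
def wt (V : Finset (Finset (Fin M))) : ℕ := ∑ v ∈ V, ∑ a ∈ v, (a : ℕ)

lemma wt_compression_lt {i j : Fin M} (hij : i < j) (V : Finset (Finset (Fin M)))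
    (hne : ∃ v ∈ V, compress {i} {j} v ∉ V) : wt (𝓒 {i} {j} V) < wt V := by
  have uA : {A ∈ V | compress {i} {j} A ∈ V} ∪ {A ∈ V | compress {i} {j} A ∉ V} = V :=
    filter_union_filter_not_eq _ _
  have ne₂ : {A ∈ V | compress {i} {j} A ∉ V}.Nonempty := by
    obtain ⟨v, hv, hv'⟩ := hne
    exact ⟨v, mem_filter.mpr ⟨hv, hv'⟩⟩
  rw [wt, wt, compression, sum_union compress_disjoint]
  conv_rhs => rw [← uA]
  rw [sum_union (disjoint_filter_filter_not _ _ _), add_lt_add_iff_left, filter_image,
    sum_image compress_injOn]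
  refine sum_lt_sum_of_nonempty ne₂ fun A hA ↦ ?_
  rw [mem_filter] at hA
  obtain ⟨hA1, hA2⟩ := hA
  rw [compress_single hij.ne] at hA2 ⊢
  split_ifs at hA2 ⊢ with h
  · rw [sum_insert (by simp [h.1]), ← add_sum_erase A _ h.2]
    have : (i : ℕ) < j := hij
    omega
  · exact absurd hA1 hA2

/-- Katona's shadow bound, `t = 2`, one step. -/
theorem katona (k : ℕ) (V : Finset (Finset (Fin M))) (hk : ∀ v ∈ V, #v = k + 1)
    (h2 : ∀ v ∈ V, ∀ w ∈ V, 2 ≤ #(v ∩ w)) : (k + 1) * #V ≤ k * #(∂ V) := by
  obtain ⟨n, hn⟩ : ∃ n, n = wt V := ⟨_, rfl⟩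
  induction n using Nat.strong_induction_on generalizing V with
  | _ n ih =>
    by_cases hS : Shifted V
    · exact katona_shifted M k V hk h2 (fun v _ a _ => a.2) hS
    · unfold Shifted at hS
      push Not at hS
      obtain ⟨v, hv, i, j, hij, hi, hj, hnot⟩ := hS
      have hlt := wt_compression_lt hij V
        ⟨v, hv, by rw [compress_single hij.ne, if_pos ⟨hi, hj⟩]; exact hnot⟩
      have h3 := ih (wt (𝓒 {i} {j} V)) (by omega) (𝓒 {i} {j} V)
        (by
          have hs : (V : Set (Finset (Fin M))).Sized (k + 1) := fun v hv => hk v hv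
          have := hs.uvCompression (u := {i}) (v := {j}) (by simp)
          intro v hv
          exact this hv)
        (compression_inter hij.ne V h2) rfl
      rw [card_compression] at h3
      refine h3.trans (Nat.mul_le_mul_left _ ?_)
      apply card_shadow_compression_le
      intro x hx
      rw [mem_singleton] at hx
      subst hx
      refine ⟨j, mem_singleton_self j, ?_⟩
      rw [erase_singleton, erase_singleton]
      exact isCompressed_self _ _

end CodimTwo
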