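import Mathlib

/-!
# Vertex isoperimetry in the cube with a concave profile

`iso`: for families `𝒜`, `ℬ` of subsets of an `(n+1)`-element set at mutual distance
at least two, `#ℬ + L (#𝒜) ≤ 2 ^ (n+1)` where `L` is the piecewise linear concave
function through the points `(2 s(n,r), 2 s(n,r+1))`, `s(n,r) = ∑ i < r, C(n,i)`.
-/

namespace CodimTwo

open Finset

/-- Partial sums of a row of Pascal's triangle. -/
def bs (n r : ℕ) : ℕ := ∑ i ∈ range r, n.choose i

lemma bs_zero (n : ℕ) : bs n 0 = 0 := by simp [bs]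

lemma bs_succ (n r : ℕ) : bs n (r + 1) = bs n r + n.choose r := by
  simp [bs, Finset.sum_range_succ]

lemma bs_one (n : ℕ) : bs n 1 = 1 := by simp [bs]

lemma bs_pascal (n r : ℕ) : bs (n + 1) (r + 1) = bs n (r + 1) + bs n r := by
  induction r with
  | zero => simp [bs]
  | succ r ih =>
    rw [bs_succ (n + 1) (r + 1), ih, bs_succ n (r + 1), bs_succ n r, Nat.choose_succ_succ n r]
    ring

lemma bs_mono (n : ℕ) {r s : ℕ} (h : r ≤ s) : bs n r ≤ bs n s := by
  unfold bs
  exact Finset.sum_le_sum_of_subset (by simpa using h)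

lemma bs_full (n : ℕ) : bs n (n + 1) = 2 ^ n := by
  unfold bs
  exact Nat.sum_range_choose n

/-- The `r`-th line of the profile (for cubes of dimension `n + 1`). -/
def ell (n r : ℕ) (x : ℚ) : ℚ :=
  2 * (bs n (r + 1) : ℚ) + (((n : ℚ) - r) / (r + 1)) * (x - 2 * (bs n r : ℚ))

lemma choose_slope (n r : ℕ) :
    (((n : ℚ) - r) / (r + 1)) * (n.choose r : ℚ) = (n.choose (r + 1) : ℚ) := by
  have hr : ((r : ℚ) + 1) ≠ 0 := by positivity
  rcases le_or_gt r n with h | h
  · have h1 := Nat.choose_succ_right_eq n r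
    have h2 : ((n - r : ℕ) : ℚ) = (n : ℚ) - r := by
      push_cast [Nat.cast_sub h]; ring
    have h3 : (n.choose (r + 1) : ℚ) * (r + 1) = (n.choose r : ℚ) * ((n : ℚ) - r) := by
      rw [← h2]; exact_mod_cast h1
    field_simp
    linarith
  · rw [Nat.choose_eq_zero_of_lt h, Nat.choose_eq_zero_of_lt (by omega)]
    simp

lemma ell_node (n r : ℕ) : ell n r (2 * (bs n (r + 1) : ℚ)) = 2 * (bs n (r + 2) : ℚ) := by
  unfold ell
  have h1 := choose_slope n r
  rw [bs_succ n (r + 1), bs_succ n r]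
  push_cast
  linear_combination 2 * h1

lemma ell_diff (n r : ℕ) (x : ℚ) :
    ell n r x - ell n (r + 1) x
      = (((n : ℚ) + 1) / ((r + 1) * (r + 2))) * (x - 2 * (bs n (r + 1) : ℚ)) := by
  have h1 := choose_slope n r
  have hr : ((r : ℚ) + 1) ≠ 0 := by positivity
  have hr2 : ((r : ℚ) + 2) ≠ 0 := by positivity
  have hr3 : ((r : ℚ) + 1 + 1) ≠ 0 := by positivity
  have e1 : ell n r x = 2 * (bs n (r + 2) : ℚ)
      + (((n : ℚ) - r) / (r + 1)) * (x - 2 * (bs n (r + 1) : ℚ)) := by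
    have := ell_node n r
    unfold ell at this ⊢
    linear_combination this
  rw [e1]
  unfold ell
  push_cast
  field_simp
  ring

lemma ell_min_up (n r : ℕ) (x : ℚ) (hx : x ≤ 2 * (bs n (r + 1) : ℚ)) (k : ℕ) :
    ell n r x ≤ ell n (r + k) x := by
  induction k with
  | zero => simp
  | succ k ih =>
    refine ih.trans ?_
    have h1 := ell_diff n (r + k) x
    have h2 : x - 2 * (bs n (r + k + 1) : ℚ) ≤ 0 := by
      have : (bs n (r + 1) : ℚ) ≤ bs n (r + k + 1) := by
        exact_mod_cast bs_mono n (by omega)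
      linarith
    have h3 : (0 : ℚ) ≤ (((n : ℚ) + 1) / (((r + k : ℕ) + 1) * ((r + k : ℕ) + 2))) := by positivity
    have h4 := mul_nonpos_of_nonneg_of_nonpos h3 h2
    rw [← h1] at h4
    have h5 : r + (k + 1) = r + k + 1 := by ring
    rw [h5]
    linarith

lemma ell_min_down (n r : ℕ) (x : ℚ) (hx : 2 * (bs n r : ℚ) ≤ x) (k : ℕ) (hk : k ≤ r) :
    ell n r x ≤ ell n (r - k) x := by
  induction k with
  | zero => simp
  | succ k ih =>
    refine (ih (by omega)).trans ?_
    have h1 := ell_diff n (r - (k + 1)) x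
    have h0 : r - (k + 1) + 1 = r - k := by omega
    rw [h0] at h1
    have h2 : 0 ≤ x - 2 * (bs n (r - k) : ℚ) := by
      have : (bs n (r - k) : ℚ) ≤ bs n r := by
        exact_mod_cast bs_mono n (by omega)
      linarith
    have h3 : (0 : ℚ) ≤ (((n : ℚ) + 1) / (((r - (k + 1) : ℕ) + 1) * ((r - (k + 1) : ℕ) + 2))) := by
      positivity
    have h4 := mul_nonneg h3 h2
    rw [← h1] at h4
    linarith

lemma ell_min (n r : ℕ) (x : ℚ) (h1 : 2 * (bs n r : ℚ) ≤ x) (h2 : x ≤ 2 * (bs n (r + 1) : ℚ))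
    (s : ℕ) : ell n r x ≤ ell n s x := by
  rcases le_total r s with h | h
  · have := ell_min_up n r x h2 (s - r)
    rwa [show r + (s - r) = s by omega] at this
  · have := ell_min_down n r x h1 (r - s) (by omega)
    rwa [show r - (r - s) = s by omega] at this

lemma ell_mono (n r : ℕ) (hr : r ≤ n) {x y : ℚ} (h : x ≤ y) : ell n r x ≤ ell n r y := by
  unfold ell
  have h1 : (0 : ℚ) ≤ ((n : ℚ) - r) / (r + 1) := by
    have : (r : ℚ) ≤ n := by exact_mod_cast hr
    apply div_nonneg (by linarith) (by positivity)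
  have := mul_le_mul_of_nonneg_left (sub_le_sub_right h (2 * (bs n r : ℚ))) h1
  linarith

/-- The functional equation behind the induction. -/
lemma ell_id (n r : ℕ) (t : ℚ) :
    ell (n + 1) (r + 1) (t + ell n r t) = ell n r t + ell n (r + 1) (ell n r t) := by
  unfold ell
  rw [show bs (n + 1) (r + 1 + 1) = bs n (r + 1 + 1) + bs n (r + 1) from bs_pascal n (r + 1),
    bs_pascal n r]
  have hr : ((r : ℚ) + 1) ≠ 0 := by positivity
  have hr3 : ((r : ℚ) + 1 + 1) ≠ 0 := by positivity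
  push_cast
  field_simp
  ring

lemma ell_affine (n r : ℕ) (t y z : ℚ) :
    (y - t) * ell n r z = (y - z) * ell n r t + (z - t) * ell n r y := by
  unfold ell; ring

lemma exists_piece (f : ℕ → ℕ) (a N : ℕ) (h0 : f 0 ≤ a) (hN : a ≤ f (N + 1)) :
    ∃ R ≤ N, f R ≤ a ∧ a ≤ f (R + 1) := by
  induction N with
  | zero => exact ⟨0, le_refl _, h0, hN⟩
  | succ N ih =>
    rcases le_total a (f (N + 1)) with h | h
    · obtain ⟨R, hR, h1, h2⟩ := ih h
      exact ⟨R, by omega, h1, h2⟩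
    · exact ⟨N + 1, le_refl _, h, hN⟩

/-- The numerical step of the induction. -/
lemma step (n a0 a1 b0 b1 : ℕ) (h : a1 ≤ a0) (ha0 : 0 < a0)
    (h01 : a0 + b1 ≤ 2 ^ (n + 1)) (h10 : a1 + b0 ≤ 2 ^ (n + 1))
    (hr0 : ∃ r ≤ n, (b0 : ℚ) + ell n r a0 ≤ 2 ^ (n + 1))
    (hr1 : 0 < a1 → ∃ r ≤ n, (b1 : ℚ) + ell n r a1 ≤ 2 ^ (n + 1)) :
    ∃ r ≤ n + 1, ((b0 + b1 : ℕ) : ℚ) + ell (n + 1) r ((a0 + a1 : ℕ) : ℚ) ≤ 2 ^ (n + 2) := by
  obtain ⟨r0, hr0n, hr0⟩ := hr0
  have q01 : (a0 : ℚ) + b1 ≤ 2 ^ (n + 1) := by exact_mod_cast h01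
  have q10 : (a1 : ℚ) + b0 ≤ 2 ^ (n + 1) := by exact_mod_cast h10
  have hpow : (2 : ℚ) ^ (n + 2) = 2 * 2 ^ (n + 1) := by ring
  rcases Nat.lt_or_ge (a0 + a1) 2 with hlt | hge
  · -- a = 1
    have e0 : a0 = 1 := by omega
    have e1 : a1 = 0 := by omega
    subst e0; subst e1
    refine ⟨0, by omega, ?_⟩
    have hm := ell_min n 0 1 (by simp [bs_zero]) (by norm_num [bs_one]) r0
    have h2 : ell n 0 1 = n + 2 := by unfold ell; simp [bs_zero, bs_one]; ring
    have h3 : ell (n + 1) 0 1 = n + 3 := by unfold ell; simp [bs_zero, bs_one]; ring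
    push_cast at *
    rw [h3, hpow]
    linarith
  · obtain ⟨R, hR, hR1, hR2⟩ := exists_piece (fun r => 2 * bs (n + 1) (r + 1)) (a0 + a1) n
      (by simpa [bs_one] using hge)
      (by
        have : bs (n + 1) (n + 1 + 1) = 2 ^ (n + 1) := bs_full (n + 1)
        simp only [this]
        omega)
    have hR1' : 2 * (bs (n + 1) (R + 1) : ℚ) ≤ (a0 : ℚ) + a1 := by exact_mod_cast hR1
    have hR2' : (a0 : ℚ) + a1 ≤ 2 * (bs (n + 1) (R + 1 + 1) : ℚ) := by exact_mod_cast hR2
    set a : ℚ := (a0 : ℚ) + a1 with ha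
    have hRn : (R : ℚ) ≤ n := by exact_mod_cast hR
    have hn1 : (0 : ℚ) < (n : ℚ) + 1 := by positivity
    have hR1p : (0 : ℚ) < (R : ℚ) + 1 := by positivity
    -- the parameter t
    obtain ⟨w, hw⟩ : ∃ w : ℚ, w = ((R : ℚ) + 1) / (n + 1) * (a - 2 * (bs (n + 1) (R + 1) : ℚ)) :=
      ⟨_, rfl⟩
    have hw0 : 0 ≤ w := by
      rw [hw]
      apply mul_nonneg (by positivity) (by linarith)
    have hwa : w * (n + 1) = (R + 1) * (a - 2 * (bs (n + 1) (R + 1) : ℚ)) := by
      rw [hw]; field_simp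
    have hw1 : w ≤ 2 * (n.choose R : ℚ) := by
      have hb : (bs (n + 1) (R + 1 + 1) : ℚ) = bs (n + 1) (R + 1) + ((n + 1).choose (R + 1) : ℚ) := by
        exact_mod_cast bs_succ (n + 1) (R + 1)
      have hc : ((n : ℚ) + 1) * (n.choose R : ℚ) = ((n + 1).choose (R + 1) : ℚ) * ((R : ℚ) + 1) := by
        exact_mod_cast Nat.add_one_mul_choose_eq n R
      have h5 : w * (n + 1) ≤ (2 * (n.choose R : ℚ)) * (n + 1) := by
        rw [hwa]
        have : a - 2 * (bs (n + 1) (R + 1) : ℚ) ≤ 2 * ((n + 1).choose (R + 1) : ℚ) := by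
          rw [hb] at hR2'; linarith
        have := mul_le_mul_of_nonneg_left this hR1p.le
        nlinarith
      exact le_of_mul_le_mul_right h5 hn1
    obtain ⟨t, ht⟩ : ∃ t : ℚ, t = 2 * (bs n R : ℚ) + w := ⟨_, rfl⟩
    have ht1 : 2 * (bs n R : ℚ) ≤ t := by linarith
    have ht2 : t ≤ 2 * (bs n (R + 1) : ℚ) := by
      rw [ht, bs_succ n R]; push_cast; linarith
    have ht0 : 0 ≤ t := le_trans (by positivity) ht1
    obtain ⟨y, hy⟩ : ∃ y : ℚ, y = ell n R t := ⟨_, rfl⟩
    have hya : t + y = a := by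
      have hp : (bs (n + 1) (R + 1) : ℚ) = bs n (R + 1) + bs n R := by exact_mod_cast bs_pascal n R
      rw [hy]
      unfold ell
      have : t - 2 * (bs n R : ℚ) = w := by linarith
      rw [this]
      have h6 : ((n : ℚ) - R) / (R + 1) * w = a - 2 * (bs (n + 1) (R + 1) : ℚ) - w := by
        field_simp
        linear_combination hwa
      rw [h6, hp, ht]; ring
    have hy1 : 2 * (bs n (R + 1) : ℚ) ≤ y := by
      rw [hy]
      have h7 : ell n R (2 * (bs n R : ℚ)) = 2 * (bs n (R + 1) : ℚ) := by unfold ell; ring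
      rw [← h7]
      exact ell_mono n R hR ht1
    have hy2 : y ≤ 2 * (bs n (R + 1 + 1) : ℚ) := by
      rw [hy, ← ell_node n R]
      exact ell_mono n R hR ht2
    have hkey : ell (n + 1) (R + 1) a = y + ell n (R + 1) y := by
      rw [← hya, hy]; exact ell_id n R t
    refine ⟨R + 1, by omega, ?_⟩
    have hcast : ((a0 + a1 : ℕ) : ℚ) = a := by push_cast; rfl
    rw [hcast, hkey, hpow]
    push_cast
    rcases le_or_gt (a1 : ℚ) t with hc | hc
    · have hya0 : y ≤ a0 := by linarith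
      have h8 := ell_mono n r0 hr0n hya0
      have h9 := ell_min n (R + 1) y hy1 hy2 r0
      linarith
    · have ha1 : 0 < a1 := by
        have : (0 : ℚ) < a1 := lt_of_le_of_lt ht0 hc
        exact_mod_cast this
      obtain ⟨r1, hr1n, hr1⟩ := hr1 ha1
      have ha01 : (a1 : ℚ) ≤ a0 := by exact_mod_cast h
      have hyt : 0 < y - t := by linarith
      have e0 := ell_affine n r0 t y a0
      have e1 := ell_affine n r1 t y a1
      have m0t := ell_min n R t ht1 ht2 r0
      have m1t := ell_min n R t ht1 ht2 r1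
      have m0y := ell_min n (R + 1) y hy1 hy2 r0
      have m1y := ell_min n (R + 1) y hy1 hy2 r1
      have p1 := mul_le_mul_of_nonneg_left m0t (show 0 ≤ y - a0 by linarith)
      have p2 := mul_le_mul_of_nonneg_left m0y (show 0 ≤ (a0 : ℚ) - t by linarith)
      have p3 := mul_le_mul_of_nonneg_left m1t (show 0 ≤ y - a1 by linarith)
      have p4 := mul_le_mul_of_nonneg_left m1y (show 0 ≤ (a1 : ℚ) - t by linarith)
      have hsum : (y - t) * (ell n R t + ell n (R + 1) y)
          ≤ (y - t) * (ell n r0 a0 + ell n r1 a1) := by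
        have : (y - t) * (ell n R t + ell n (R + 1) y)
            = ((y - a0) * ell n R t + (a0 - t) * ell n (R + 1) y)
              + ((y - a1) * ell n R t + (a1 - t) * ell n (R + 1) y) := by
          have : (a0 : ℚ) = t + y - a1 := by linarith
          rw [this]; ring
        rw [this, mul_add, e0, e1]
        linarith
      have h10' := le_of_mul_le_mul_left hsum hyt
      rw [← hy] at h10'
      linarith

/-- Distance in the cube of subsets. -/
def hd {α : Type*} [DecidableEq α] (A B : Finset α) : ℕ := #(A \ B) + #(B \ A)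

section
variable {α : Type*} [DecidableEq α]

lemma hd_comm (A B : Finset α) : hd A B = hd B A := by unfold hd; ring

lemma hd_self (A : Finset α) : hd A A = 0 := by simp [hd]

lemma hd_insert_insert {a : α} {A B : Finset α} (hA : a ∉ A) (hB : a ∉ B) :
    hd (insert a A) (insert a B) = hd A B := by
  unfold hd
  have h1 : insert a A \ insert a B = A \ B := by
    ext x; simp only [mem_sdiff, mem_insert]
    constructor
    · rintro ⟨h | h, h'⟩
      · exact absurd (Or.inl h) h'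
      · exact ⟨h, fun h2 => h' (Or.inr h2)⟩
    · rintro ⟨h, h'⟩
      refine ⟨Or.inr h, ?_⟩
      rintro (h2 | h2)
      · exact hA (h2 ▸ h)
      · exact h' h2
  have h2 : insert a B \ insert a A = B \ A := by
    ext x; simp only [mem_sdiff, mem_insert]
    constructor
    · rintro ⟨h | h, h'⟩
      · exact absurd (Or.inl h) h'
      · exact ⟨h, fun h2 => h' (Or.inr h2)⟩
    · rintro ⟨h, h'⟩
      refine ⟨Or.inr h, ?_⟩
      rintro (h2 | h2)
      · exact hB (h2 ▸ h)
      · exact h' h2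
  rw [h1, h2]

lemma hd_insert_left {a : α} {A B : Finset α} (hA : a ∉ A) (hB : a ∉ B) :
    hd (insert a A) B = hd A B + 1 := by
  unfold hd
  have h1 : insert a A \ B = insert a (A \ B) := by
    ext x; simp only [mem_sdiff, mem_insert]
    constructor
    · rintro ⟨h | h, h'⟩
      · exact Or.inl h
      · exact Or.inr ⟨h, h'⟩
    · rintro (h | ⟨h, h'⟩)
      · exact ⟨Or.inl h, h ▸ hB⟩
      · exact ⟨Or.inr h, h'⟩
  have h2 : B \ insert a A = B \ A := by
    ext x; simp only [mem_sdiff, mem_insert]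
    constructor
    · rintro ⟨h, h'⟩
      exact ⟨h, fun h2 => h' (Or.inr h2)⟩
    · rintro ⟨h, h'⟩
      refine ⟨h, ?_⟩
      rintro (h2 | h2)
      · exact hB (h2 ▸ h)
      · exact h' h2
  rw [h1, h2, card_insert_of_notMem (by simp [hA])]
  ring

lemma hd_insert_right {a : α} {A B : Finset α} (hA : a ∉ A) (hB : a ∉ B) :
    hd A (insert a B) = hd A B + 1 := by
  rw [hd_comm, hd_insert_left hB hA, hd_comm]

lemma disjoint_card_le {u : Finset α} {𝒜 ℬ : Finset (Finset α)} (hA : ∀ A ∈ 𝒜, A ⊆ u)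
    (hB : ∀ B ∈ ℬ, B ⊆ u) (h : Disjoint 𝒜 ℬ) : #𝒜 + #ℬ ≤ 2 ^ #u := by
  rw [← card_union_of_disjoint h, ← card_powerset]
  apply card_le_card
  intro x hx
  rw [mem_powerset]
  rcases mem_union.mp hx with h1 | h1
  · exact hA x h1
  · exact hB x h1

/-- Vertex isoperimetry with the concave profile. -/
theorem iso (n : ℕ) : ∀ (u : Finset α), #u = n + 1 → ∀ 𝒜 ℬ : Finset (Finset α),
    (∀ A ∈ 𝒜, A ⊆ u) → (∀ B ∈ ℬ, B ⊆ u) → (∀ A ∈ 𝒜, ∀ B ∈ ℬ, 2 ≤ hd A B) → 0 < #𝒜 →
    ∃ r ≤ n, (#ℬ : ℚ) + ell n r (#𝒜 : ℚ) ≤ 2 ^ (n + 1) := by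
  induction n with
  | zero =>
    intro u hu 𝒜 ℬ hA hB hf hne
    obtain ⟨A, hA0⟩ := card_pos.mp hne
    have hBe : ℬ = ∅ := by
      rw [eq_empty_iff_forall_notMem]
      intro B hB0
      have h1 := hf A hA0 B hB0
      have h2 : hd A B ≤ #u := by
        unfold hd
        rw [← card_union_of_disjoint]
        · apply card_le_card
          apply union_subset
          · exact sdiff_subset.trans (hA A hA0)
          · exact sdiff_subset.trans (hB B hB0)
        · rw [disjoint_left]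
          intro x hx hx'
          simp only [mem_sdiff] at hx hx'
          exact hx.2 hx'.1
      omega
    refine ⟨0, le_refl _, ?_⟩
    rw [hBe]
    unfold ell
    simp [bs_one]
  | succ n ih =>
    intro u hu 𝒜 ℬ hA hB hf hne
    obtain ⟨a, ha⟩ := card_pos.mp (show 0 < #u by omega)
    have hu' : #(u.erase a) = n + 1 := by rw [card_erase_of_mem ha, hu]; rfl
    set A0 := 𝒜.nonMemberSubfamily a with hA0
    set A1 := 𝒜.memberSubfamily a with hA1
    set B0 := ℬ.nonMemberSubfamily a with hB0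
    set B1 := ℬ.memberSubfamily a with hB1
    have sub0 : ∀ 𝒞 : Finset (Finset α), (∀ A ∈ 𝒞, A ⊆ u) →
        ∀ A ∈ 𝒞.nonMemberSubfamily a, A ⊆ u.erase a := by
      intro 𝒞 h𝒞 A hA'
      rw [mem_nonMemberSubfamily] at hA'
      intro x hx
      rw [mem_erase]
      exact ⟨fun h => hA'.2 (h ▸ hx), h𝒞 A hA'.1 hx⟩
    have sub1 : ∀ 𝒞 : Finset (Finset α), (∀ A ∈ 𝒞, A ⊆ u) →
        ∀ A ∈ 𝒞.memberSubfamily a, A ⊆ u.erase a := by
      intro 𝒞 h𝒞 A hA'
      rw [mem_memberSubfamily] at hA'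
      intro x hx
      rw [mem_erase]
      exact ⟨fun h => hA'.2 (h ▸ hx), h𝒞 _ hA'.1 (mem_insert_of_mem hx)⟩
    have f00 : ∀ A ∈ A0, ∀ B ∈ B0, 2 ≤ hd A B := by
      intro A h B h'
      rw [hA0, mem_nonMemberSubfamily] at h
      rw [hB0, mem_nonMemberSubfamily] at h'
      exact hf A h.1 B h'.1
    have f11 : ∀ A ∈ A1, ∀ B ∈ B1, 2 ≤ hd A B := by
      intro A h B h'
      rw [hA1, mem_memberSubfamily] at h
      rw [hB1, mem_memberSubfamily] at h'
      have := hf _ h.1 _ h'.1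
      rwa [hd_insert_insert h.2 h'.2] at this
    have d01 : Disjoint A0 B1 := by
      rw [disjoint_left]
      intro X h h'
      rw [hA0, mem_nonMemberSubfamily] at h
      rw [hB1, mem_memberSubfamily] at h'
      have := hf _ h.1 _ h'.1
      rw [hd_insert_right h.2 h.2, hd_self] at this
      omega
    have d10 : Disjoint A1 B0 := by
      rw [disjoint_left]
      intro X h h'
      rw [hA1, mem_memberSubfamily] at h
      rw [hB0, mem_nonMemberSubfamily] at h'
      have := hf _ h.1 _ h'.1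
      rw [hd_insert_left h.2 h.2, hd_self] at this
      omega
    have c01 : #A0 + #B1 ≤ 2 ^ (n + 1) := by
      rw [← hu']; exact disjoint_card_le (sub0 𝒜 hA) (sub1 ℬ hB) d01
    have c10 : #A1 + #B0 ≤ 2 ^ (n + 1) := by
      rw [← hu']; exact disjoint_card_le (sub1 𝒜 hA) (sub0 ℬ hB) d10
    have cA : #A1 + #A0 = #𝒜 := card_memberSubfamily_add_card_nonMemberSubfamily a 𝒜
    have cB : #B1 + #B0 = #ℬ := card_memberSubfamily_add_card_nonMemberSubfamily a ℬ
    have i0 := ih (u.erase a) hu' A0 B0 (sub0 𝒜 hA) (sub0 ℬ hB) f00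
    have i1 := ih (u.erase a) hu' A1 B1 (sub1 𝒜 hA) (sub1 ℬ hB) f11
    rcases le_total (#A1) (#A0) with h | h
    · have := step n (#A0) (#A1) (#B0) (#B1) h (by omega) c01 c10 (i0 (by omega)) i1
      rwa [show #A0 + #A1 = #𝒜 by omega, show #B0 + #B1 = #ℬ by omega] at this
    · have := step n (#A1) (#A0) (#B1) (#B0) h (by omega) c10 c01 (i1 (by omega)) i0
      rwa [show #A1 + #A0 = #𝒜 by omega, show #B1 + #B0 = #ℬ by omega] at this

end

end CodimTwo
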