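import Pool.Agent.H.MP_602efc_co.Upper

/-!
# The construction
-/

namespace CodimTwo

open Finset

variable {d : ℕ}

/-- The words on the two special coordinates sitting over `y`. -/
def ovr (R : Finset (Fin d)) (S : Finset (Finset (Fin d))) (a b r : Fin d) (y : Finset (Fin d)) :
    Finset (Finset (Fin d) × Finset (Fin d)) :=
  if y ∈ S then {(∅, ∅)}
  else if R \ y ∈ S then {(∅, {a, b}), ({a}, {b}), ({b}, {a}), ({a, b}, ∅)}
  else if r ∉ y then {({b}, ∅), (∅, {b})}
  else {({a}, ∅), (∅, {a})}

/-- The word attached to a pair. -/
def wd (R : Finset (Fin d)) (y : Finset (Fin d)) (t : Finset (Fin d) × Finset (Fin d)) :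
    Finset (Fin d) × Finset (Fin d) := (y ∪ t.1, (R \ y) ∪ t.2)

lemma over_sub {R : Finset (Fin d)} {S : Finset (Finset (Fin d))} {a b r : Fin d}
    {y : Finset (Fin d)} {t : Finset (Fin d) × Finset (Fin d)} (ht : t ∈ ovr R S a b r y)
    (hab : a ≠ b) : t.1 ⊆ {a, b} ∧ t.2 ⊆ {a, b} ∧ Disjoint t.1 t.2 := by
  unfold ovr at ht
  split_ifs at ht
  · rw [mem_singleton] at ht; subst ht; simp
  · simp only [mem_insert, mem_singleton] at ht
    rcases ht with rfl | rfl | rfl | rfl <;> simp [hab, hab.symm]
  · simp only [mem_insert, mem_singleton] at ht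
    rcases ht with rfl | rfl <;> simp
  · simp only [mem_insert, mem_singleton] at ht
    rcases ht with rfl | rfl <;> simp

lemma over_sep {R : Finset (Fin d)} {S : Finset (Finset (Fin d))} {a b r : Fin d}
    {y : Finset (Fin d)} {t t' : Finset (Fin d) × Finset (Fin d)} (ht : t ∈ ovr R S a b r y)
    (ht' : t' ∈ ovr R S a b r y) (hab : a ≠ b) (hne : t ≠ t') : 1 ≤ wdist t t' := by
  unfold ovr at ht ht'
  split_ifs at ht ht'
  · rw [mem_singleton] at ht ht'
    exact absurd (ht.trans ht'.symm) hne
  · simp only [mem_insert, mem_singleton] at ht ht'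
    have hba := hab.symm
    rcases ht with rfl | rfl | rfl | rfl <;> rcases ht' with rfl | rfl | rfl | rfl <;>
      first
        | exact absurd rfl hne
        | (unfold wdist; simp [hab, hba])
  · simp only [mem_insert, mem_singleton] at ht ht'
    rcases ht with rfl | rfl <;> rcases ht' with rfl | rfl <;>
      first
        | exact absurd rfl hne
        | (unfold wdist; simp)
  · simp only [mem_insert, mem_singleton] at ht ht'
    rcases ht with rfl | rfl <;> rcases ht' with rfl | rfl <;>
      first
        | exact absurd rfl hne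
        | (unfold wdist; simp)

lemma dist_comm' (u v : Finset (Fin d) × Finset (Fin d)) : wdist u v = wdist v u := by
  unfold wdist
  rw [inter_comm u.1, inter_comm u.2]; ring

lemma dist_le_left (u v : Finset (Fin d) × Finset (Fin d)) : wdist u v ≤ #u.1 + #u.2 := by
  unfold wdist
  exact Nat.add_le_add (card_le_card inter_subset_left) (card_le_card inter_subset_left)

lemma dist_wd {R y y' : Finset (Fin d)} {t t' : Finset (Fin d) × Finset (Fin d)} {a b : Fin d}
    (hy : y ⊆ R) (hy' : y' ⊆ R) (haR : a ∉ R) (hbR : b ∉ R)
    (h1 : t.1 ⊆ {a, b}) (h2 : t.2 ⊆ {a, b}) (h1' : t'.1 ⊆ {a, b}) (h2' : t'.2 ⊆ {a, b}) :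
    wdist (wd R y t) (wd R y' t') = hd y y' + wdist t t' := by
  have out : ∀ s : Finset (Fin d), s ⊆ {a, b} → ∀ x ∈ s, x ∉ R := by
    intro s hs x hx
    have := hs hx
    rw [mem_insert, mem_singleton] at this
    rcases this with rfl | rfl
    · exact haR
    · exact hbR
  have e : ∀ z z' o z2 : Finset (Fin d), z ⊆ R → z' ⊆ R → o ⊆ {a, b} → z2 ⊆ {a, b} →
      #((z ∪ o) ∩ ((R \ z') ∪ z2)) = #(z \ z') + #(o ∩ z2) := by
    intro z z' o z2 hz hz' ho hz2
    rw [← card_union_of_disjoint]
    · congr 1
      ext x
      simp only [mem_inter, mem_union, mem_sdiff]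
      constructor
      · rintro ⟨h | h, h' | h'⟩
        · exact Or.inl ⟨h, h'.2⟩
        · exact absurd (hz h) (out z2 hz2 x h')
        · exact absurd h'.1 (out o ho x h)
        · exact Or.inr ⟨h, h'⟩
      · rintro (⟨h, h'⟩ | ⟨h, h'⟩)
        · exact ⟨Or.inl h, Or.inl ⟨hz h, h'⟩⟩
        · exact ⟨Or.inr h, Or.inr h'⟩
    · rw [disjoint_left]
      intro x hx hx'
      exact (out o ho x (mem_inter.mp hx').1) (hz (mem_sdiff.mp hx).1)
  unfold wdist wd hd
  simp only
  rw [e y y' t.1 t'.2 hy hy' h1 h2', inter_comm ((R \ y) ∪ t.2), e y' y t'.1 t.2 hy' hy h1' h2,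
    inter_comm t'.1]
  ring

/-- All pairs of words of the construction are at distance between `1` and `d-2`. -/
theorem construction {R : Finset (Fin d)} {S : Finset (Finset (Fin d))} {a b r : Fin d}
    (hd4 : 4 ≤ d) (hR : #R + 2 = d) (haR : a ∉ R) (hbR : b ∉ R) (hab : a ≠ b) (hr : r ∈ R)
    (hSR : ∀ s ∈ S, s ⊆ R) (hSd : ∀ s ∈ S, ∀ s' ∈ S, hd s s' ≤ d - 4)
    {y y' : Finset (Fin d)} {t t' : Finset (Fin d) × Finset (Fin d)}
    (hy : y ⊆ R) (hy' : y' ⊆ R) (ht : t ∈ ovr R S a b r y) (ht' : t' ∈ ovr R S a b r y')
    (hne : ¬ (y = y' ∧ t = t')) :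
    1 ≤ wdist (wd R y t) (wd R y' t') ∧ wdist (wd R y t) (wd R y' t') ≤ d - 2 := by
  have o := over_sub ht hab
  have o' := over_sub ht' hab
  rw [dist_wd hy hy' haR hbR o.1 o.2.1 o'.1 o'.2.1]
  constructor
  · by_cases hyy : y = y'
    · subst hyy
      have := over_sep ht ht' hab (fun h => hne ⟨rfl, h⟩)
      omega
    · have : 1 ≤ hd y y' := by
        rw [hd_eq_symmDiff]
        apply card_pos.mpr
        rw [nonempty_iff_ne_empty]
        intro h
        exact hyy (symmDiff_eq_bot.mp h)
      omega
  · have hΔ := hd_le_card hy hy'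
    have hcy : ∀ z z', z ⊆ R → z' ⊆ R → hd z z' = #R → z' = R \ z := by
      intro z z' hz hz' h
      have h1 := hd_compl hz' hz
      have h2 : hd z' (R \ z) = 0 := by rw [hd_comm z z'] at h; omega
      rw [hd_eq_symmDiff, card_eq_zero] at h2
      exact symmDiff_eq_bot.mp h2
    have hne_of : ∀ z z', z ⊆ R → z' ⊆ R → z' ≠ R \ z → hd z z' + 1 ≤ #R := by
      intro z z' hz hz' h
      have h1 := hd_le_card hz hz'
      have h2 : hd z z' ≠ #R := fun h2 => h (hcy z z' hz hz' h2)
      omega
    -- classify `y` and `y'`
    by_cases c1 : y ∈ S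
    · have : t = (∅, ∅) := by
        unfold ovr at ht
        rw [if_pos c1, mem_singleton] at ht
        exact ht
      rw [this]
      have h0 : wdist ((∅, ∅) : Finset (Fin d) × Finset (Fin d)) t' = 0 := by simp [wdist]
      rw [h0]; omega
    by_cases c1' : y' ∈ S
    · have : t' = (∅, ∅) := by
        unfold ovr at ht'
        rw [if_pos c1', mem_singleton] at ht'
        exact ht'
      rw [this]
      have h0 : wdist t ((∅, ∅) : Finset (Fin d) × Finset (Fin d)) = 0 := by simp [wdist]
      rw [h0]; omega
    have small : ∀ z u, z ∉ S → R \ z ∉ S → u ∈ ovr R S a b r z → #u.1 + #u.2 = 1 := by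
      intro z u hz1 hz2 hu
      unfold ovr at hu
      rw [if_neg hz1, if_neg hz2] at hu
      split_ifs at hu
      · simp only [mem_insert, mem_singleton] at hu
        rcases hu with rfl | rfl <;> simp
      · simp only [mem_insert, mem_singleton] at hu
        rcases hu with rfl | rfl <;> simp
    by_cases c2 : R \ y ∈ S
    · by_cases c2' : R \ y' ∈ S
      · have h1 := hSd _ c2 _ c2'
        have h2 : hd (R \ y) (R \ y') = hd y y' := by
          have e1 : (R \ y) \ (R \ y') = y' \ y := by
            ext x; simp only [mem_sdiff]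
            constructor
            · rintro ⟨⟨h1, h2⟩, h3⟩
              exact ⟨by by_contra h4; exact h3 ⟨h1, h4⟩, h2⟩
            · rintro ⟨h1, h2⟩
              exact ⟨⟨hy' h1, h2⟩, fun h3 => h3.2 h1⟩
          have e2 : (R \ y') \ (R \ y) = y \ y' := by
            ext x; simp only [mem_sdiff]
            constructor
            · rintro ⟨⟨h1, h2⟩, h3⟩
              exact ⟨by by_contra h4; exact h3 ⟨h1, h4⟩, h2⟩
            · rintro ⟨h1, h2⟩
              exact ⟨⟨hy h1, h2⟩, fun h3 => h3.2 h1⟩
          unfold hd
          rw [e1, e2]; ring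
        have h3 : wdist t t' ≤ 2 := by
          refine (dist_le_left t t').trans ?_
          rw [← card_union_of_disjoint o.2.2]
          refine (card_le_card (union_subset o.1 o.2.1)).trans ?_
          exact card_le_two
        omega
      · -- `y'` is in the middle
        have h1 : y' ≠ R \ y := fun h => c1' (h ▸ c2)
        have h2 := hne_of y y' hy hy' h1
        have h3 := small y' t' c1' c2' ht'
        have h4 := dist_le_left t' t
        rw [dist_comm'] at h4
        omega
    · by_cases c2' : R \ y' ∈ S
      · have h1 : y ≠ R \ y' := fun h => c1 (h ▸ c2')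
        have h2 := hne_of y' y hy' hy h1
        have h3 := small y t c1 c2 ht
        have h4 := dist_le_left t t'
        rw [hd_comm] at h2
        omega
      · -- both in the middle
        unfold ovr at ht ht'
        rw [if_neg c1, if_neg c2] at ht
        rw [if_neg c1', if_neg c2'] at ht'
        by_cases hry : r ∈ y <;> by_cases hry' : r ∈ y'
        · have h1 : y' ≠ R \ y := fun h => by
            rw [h, mem_sdiff] at hry'
            exact hry'.2 hry
          have h2 := hne_of y y' hy hy' h1
          have h3 := small y t c1 c2 (by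
            unfold ovr; rw [if_neg c1, if_neg c2]; exact ht)
          have h4 := dist_le_left t t'
          omega
        · rw [if_neg (not_not.mpr hry)] at ht
          rw [if_pos hry'] at ht'
          simp only [mem_insert, mem_singleton] at ht ht'
          have h0 : wdist t t' = 0 := by
            rcases ht with rfl | rfl <;> rcases ht' with rfl | rfl <;>
              (unfold wdist; simp [hab, hab.symm])
          omega
        · rw [if_pos hry] at ht
          rw [if_neg (not_not.mpr hry')] at ht'
          simp only [mem_insert, mem_singleton] at ht ht'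
          have h0 : wdist t t' = 0 := by
            rcases ht with rfl | rfl <;> rcases ht' with rfl | rfl <;>
              (unfold wdist; simp [hab, hab.symm])
          omega
        · have h1 : y' ≠ R \ y := fun h => by
            rw [h, mem_sdiff] at hry'
            exact hry' ⟨hr, hry⟩
          have h2 := hne_of y y' hy hy' h1
          have h3 := small y t c1 c2 (by
            unfold ovr; rw [if_neg c1, if_neg c2]; exact ht)
          have h4 := dist_le_left t t'
          omega

/-- Number of words. -/
lemma card_over {R : Finset (Fin d)} {S : Finset (Finset (Fin d))} {a b r : Fin d} (hab : a ≠ b)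
    (hR : 1 ≤ #R) (hSR : ∀ s ∈ S, s ⊆ R) (hSd : ∀ s ∈ S, ∀ s' ∈ S, hd s s' < #R) :
    ∑ y ∈ R.powerset, #(ovr R S a b r y) = 2 * 2 ^ #R + #S := by
  have hpt : ∀ y ∈ R.powerset, #(ovr R S a b r y) + (if y ∈ S then 1 else 0)
      = 2 + 2 * (if R \ y ∈ S then 1 else 0) := by
    intro y hy
    rw [mem_powerset] at hy
    unfold ovr
    by_cases c1 : y ∈ S
    · have c2 : R \ y ∉ S := by
        intro h
        have h1 := hSd _ c1 _ h
        have h2 := hd_compl hy hy
        rw [hd_self] at h2
        omega
      simp [c1, c2]
    · by_cases c2 : R \ y ∈ S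
      · simp only [c1, c2, if_true, if_false]
        rw [card_insert_of_notMem, card_insert_of_notMem, card_insert_of_notMem, card_singleton]
        · simp only [mem_singleton, Prod.mk.injEq, not_and]
          intro h
          have : a ∈ ({b} : Finset (Fin d)) := by rw [h]; simp
          rw [mem_singleton] at this
          exact absurd this hab
        · simp only [mem_insert, mem_singleton, Prod.mk.injEq, not_or, not_and]
          constructor
          · intro h
            have : a ∈ ({b} : Finset (Fin d)) := by rw [← h]; simp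
            rw [mem_singleton] at this
            exact absurd this hab
          · intro h
            have : b ∈ ({a} : Finset (Fin d)) := by rw [h]; simp
            rw [mem_singleton] at this
            exact absurd this.symm hab
        · simp only [mem_insert, mem_singleton, Prod.mk.injEq, not_or, not_and]
          refine ⟨?_, ?_, ?_⟩
          · intro h
            exact absurd h.symm (singleton_ne_empty a)
          · intro h
            exact absurd h.symm (singleton_ne_empty b)
          · intro h
            have : a ∈ (∅ : Finset (Fin d)) := by rw [h]; simp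
            simp at this
      · simp only [c1, c2, if_false]
        split_ifs
        · rw [card_insert_of_notMem, card_singleton]
          simp only [mem_singleton, Prod.mk.injEq, not_and]
          intro h
          exact absurd h (singleton_ne_empty _)
        · rw [card_insert_of_notMem, card_singleton]
          simp only [mem_singleton, Prod.mk.injEq, not_and]
          intro h
          exact absurd h (singleton_ne_empty _)
  have hsum := sum_congr rfl hpt
  rw [sum_add_distrib, sum_add_distrib, ← mul_sum, sum_const, card_powerset, smul_eq_mul,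
    ← card_filter, ← card_filter] at hsum
  have e1 : R.powerset.filter (fun y => y ∈ S) = S := by
    ext y
    rw [mem_filter, mem_powerset]
    exact ⟨fun h => h.2, fun h => ⟨hSR y h, h⟩⟩
  have e2 : #(R.powerset.filter (fun y => R \ y ∈ S)) = #S := by
    apply card_bij (fun y _ => R \ y)
    · intro y hy
      exact (mem_filter.mp hy).2
    · intro y hy y' hy' h
      rw [mem_filter, mem_powerset] at hy hy'
      have := congrArg (fun z => R \ z) h
      simp only [Finset.sdiff_sdiff_eq_self hy.1, Finset.sdiff_sdiff_eq_self hy'.1] at this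
      exact this
    · intro s hs
      refine ⟨R \ s, ?_, Finset.sdiff_sdiff_eq_self (hSR s hs)⟩
      rw [mem_filter, mem_powerset]
      refine ⟨sdiff_subset, ?_⟩
      rw [Finset.sdiff_sdiff_eq_self (hSR s hs)]
      exact hs
  rw [e1, e2] at hsum
  omega

end CodimTwo
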