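import Pool.Agent.H.MP_602efc_co.Descent

/-!
# A parity functional that is small on every family of diameter `d-2`
-/

namespace CodimTwo

open Finset
open scoped FinsetFamily symmDiff

section
variable {α : Type*} [DecidableEq α]

lemma hd_eq_symmDiff (A B : Finset α) : hd A B = #(A ∆ B) := by
  unfold hd
  rw [symmDiff_def, sup_eq_union, card_union_of_disjoint]
  rw [disjoint_left]
  intro x hx hx'
  rw [mem_sdiff] at hx hx'
  exact hx.2 hx'.1

lemma hd_translate (A B C : Finset α) : hd (A ∆ C) (B ∆ C) = hd A B := by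
  rw [hd_eq_symmDiff, hd_eq_symmDiff]
  congr 1
  ext x
  simp only [mem_symmDiff]
  tauto

lemma symmDiff_inj (C : Finset α) : Function.Injective (fun A : Finset α => A ∆ C) := by
  intro A B h
  simp only at h
  have : (A ∆ C) ∆ C = (B ∆ C) ∆ C := by rw [h]
  rwa [symmDiff_symmDiff_cancel_right, symmDiff_symmDiff_cancel_right] at this

end

/-- Dropping the last coordinate. -/
def drop {n : ℕ} (x : Finset (Fin (n + 1))) : Finset (Fin n) :=
  univ.filter (fun i => i.castSucc ∈ x)

lemma mem_drop {n : ℕ} (x : Finset (Fin (n + 1))) (i : Fin n) : i ∈ drop x ↔ i.castSucc ∈ x := by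
  simp [drop]

lemma image_drop {n : ℕ} (x : Finset (Fin (n + 1))) :
    (drop x).map Fin.castSuccEmb = x.erase (Fin.last n) := by
  ext i
  rw [mem_map, mem_erase]
  constructor
  · rintro ⟨a, ha, rfl⟩
    rw [mem_drop] at ha
    exact ⟨(Fin.castSucc_lt_last a).ne, ha⟩
  · rintro ⟨h1, h2⟩
    refine ⟨i.castPred h1, ?_, ?_⟩
    · rw [mem_drop, Fin.castSucc_castPred]; exact h2
    · exact Fin.castSucc_castPred i h1

lemma card_drop {n : ℕ} (x : Finset (Fin (n + 1))) : #(drop x) = #(x.erase (Fin.last n)) := by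
  rw [← image_drop, card_map]

lemma hd_drop_le {n : ℕ} (x y : Finset (Fin (n + 1))) : hd (drop x) (drop y) ≤ hd x y := by
  have h : ∀ a b : Finset (Fin (n + 1)), #(drop a \ drop b) ≤ #(a \ b) := by
    intro a b
    rw [← card_map Fin.castSuccEmb]
    apply card_le_card
    intro i hi
    obtain ⟨j, hj, rfl⟩ := mem_map.mp hi
    rw [mem_sdiff, mem_drop, mem_drop] at hj
    rw [mem_sdiff]
    exact hj
  unfold hd
  exact Nat.add_le_add (h x y) (h y x)

/-- Parity of the centre. -/
theorem centre_parity (p : ℕ) (n : ℕ) (hn : n = 2 * (p + 1) + 2) (Y : Finset (Finset (Fin (n + 1))))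
    (π : ℕ) (hπ : ∀ y ∈ Y, #y % 2 = π % 2) (hdiam : ∀ x ∈ Y, ∀ y ∈ Y, hd x y ≤ 2 * (p + 1))
    (hbig : 4 * bs (2 * (p + 1)) (p + 1) < #Y) (c : Finset (Fin (n + 1)))
    (hc : ∀ i, #(Y.filter (fun y => i ∈ y ∆ c)) ≤ 2 * bs (2 * (p + 1)) (p + 1)) :
    #c % 2 = (π + (p + 1)) % 2 := by
  by_contra hcon
  have hpar : ∀ y ∈ Y, #(y ∆ c) % 2 = (p + 1 + 1) % 2 := by
    intro y hy
    have h1 := hd_parity y c
    rw [hd_eq_symmDiff] at h1
    have h2 := hπ y hy
    omega
  set g : Finset (Fin (n + 1)) → Finset (Fin n) := fun y => drop (y ∆ c) with hg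
  have hlast : ∀ y ∈ Y, (#(g y) % 2 = (p + 1) % 2 ↔ Fin.last n ∈ y ∆ c) := by
    intro y hy
    have h1 := hpar y hy
    rw [hg]
    simp only
    rw [card_drop]
    constructor
    · intro h2
      by_contra h3
      rw [erase_eq_of_notMem h3] at h2
      omega
    · intro h3
      have := card_erase_add_one h3
      omega
  have hginj : Set.InjOn g Y := by
    intro x hx y hy hxy
    have hx' := hlast x hx
    have hy' := hlast y hy
    rw [hxy] at hx'
    have hiff : Fin.last n ∈ x ∆ c ↔ Fin.last n ∈ y ∆ c := hx'.symm.trans hy'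
    have h2 : x ∆ c = y ∆ c := by
      have h3 : (x ∆ c).erase (Fin.last n) = (y ∆ c).erase (Fin.last n) := by
        rw [← image_drop, ← image_drop]
        exact congrArg _ hxy
      by_cases h4 : Fin.last n ∈ x ∆ c
      · rw [← insert_erase h4, ← insert_erase (hiff.mp h4), h3]
      · rwa [erase_eq_of_notMem h4, erase_eq_of_notMem (fun h => h4 (hiff.mpr h))] at h3
    exact symmDiff_inj c h2
  have hcardfilter : ∀ (P : Finset (Fin n) → Prop) [DecidablePred P],
      #((Y.image g).filter P) = #(Y.filter (fun y => P (g y))) := by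
    intro P _
    rw [filter_image, card_image_of_injOn]
    exact hginj.mono (by intro x hx; exact (mem_filter.mp hx).1)
  refine phi_false n p hn _ (Y.image g) rfl ⟨?_, ?_, ?_, ?_⟩
  · intro x hx y hy
    obtain ⟨x', hx', rfl⟩ := mem_image.mp hx
    obtain ⟨y', hy', rfl⟩ := mem_image.mp hy
    refine (hd_drop_le _ _).trans ?_
    rw [hd_translate]
    exact hdiam x' hx' y' hy'
  · rw [card_image_of_injOn hginj]; exact hbig
  · intro j
    rw [hcardfilter]
    have : Y.filter (fun y => j ∈ g y) = Y.filter (fun y => j.castSucc ∈ y ∆ c) := by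
      apply filter_congr
      intro y _
      exact mem_drop _ _
    rw [this]
    exact hc _
  · rw [hcardfilter]
    have : Y.filter (fun y => #(g y) % 2 = (p + 1) % 2)
        = Y.filter (fun y => Fin.last n ∈ y ∆ c) := by
      apply filter_congr
      intro y hy
      exact hlast y hy
    rw [this]
    exact hc _

/-- Even dimension: one parity class of a family of diameter `2q` in dimension `2q+2` is small. -/
theorem even_choice (q n : ℕ) (hn : n = 2 * q + 2) (F : Finset (Finset (Fin n)))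
    (hF : ∀ x ∈ F, ∀ y ∈ F, hd x y ≤ 2 * q) :
    ∃ ε : ℕ, #(F.filter (fun x => #(x ∩ univ) % 2 = ε)) ≤ 2 * bs (2 * q) q ∧ ε < 2 := by
  have h := far_odd_par q (univ : Finset (Fin n)) (by rw [card_univ, Fintype.card_fin, hn])
      (F.filter (fun x => #x % 2 = 0)) (F.filter (fun x => #x % 2 = 1))
      (fun _ _ => subset_univ _) (fun _ _ => subset_univ _) _ _
      (fun A hA => (mem_filter.mp hA).2) (fun A hA => (mem_filter.mp hA).2) (by
    intro x hx y hy
    rw [mem_filter] at hx hy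
    have h3 := hF x hx.1 y hy.1
    have h4 := hd_parity x y
    rw [card_univ, Fintype.card_fin]
    omega)
  simp only [inter_univ]
  rcases h with h | h
  · exact ⟨0, h, by omega⟩
  · exact ⟨1, h, by omega⟩

lemma coord_min (q n : ℕ) (hn : n = 2 * q + 2) (Y : Finset (Finset (Fin (n + 1)))) (π : ℕ)
    (hπ : ∀ y ∈ Y, #y % 2 = π % 2) (hdiam : ∀ x ∈ Y, ∀ y ∈ Y, hd x y ≤ 2 * q)
    (i : Fin (n + 1)) :
    #(Y.filter (fun y => i ∉ y)) ≤ 2 * bs (2 * q) q ∨ #(Y.filter (fun y => i ∈ y)) ≤ 2 * bs (2 * q) q := by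
  have hv : #((univ : Finset (Fin (n + 1))).erase i) = 2 * q + 2 := by
    rw [card_erase_of_mem (mem_univ i), card_univ, Fintype.card_fin, hn]; rfl
  have h0 : #(Y.nonMemberSubfamily i) = #(Y.filter (fun y => i ∉ y)) := rfl
  have h1 : #(Y.memberSubfamily i) = #(Y.filter (fun y => i ∈ y)) := by
    have e1 := card_memberSubfamily_add_card_nonMemberSubfamily i Y
    have e2 := card_filter_add_card_filter_not (s := Y) (fun y => i ∈ y)
    rw [h0] at e1
    omega
  rw [← h0, ← h1]
  have subv : ∀ s : Finset (Fin (n + 1)), i ∉ s → s ⊆ (univ : Finset (Fin (n + 1))).erase i := by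
    intro s hs x hx
    rw [mem_erase]
    exact ⟨fun h => hs (h ▸ hx), mem_univ x⟩
  refine far_odd_par q _ hv _ _ ?_ ?_ (π % 2) ((π + 1) % 2) ?_ ?_ ?_
  · intro A hA
    rw [mem_nonMemberSubfamily] at hA
    exact subv A hA.2
  · intro A hA
    rw [mem_memberSubfamily] at hA
    exact subv A hA.2
  · intro A hA
    rw [mem_nonMemberSubfamily] at hA
    exact hπ A hA.1
  · intro A hA
    rw [mem_memberSubfamily] at hA
    have := hπ _ hA.1
    rw [card_insert_of_notMem hA.2] at this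
    omega
  · intro A hA B hB
    rw [mem_nonMemberSubfamily] at hA
    rw [mem_memberSubfamily] at hB
    have h2 := hdiam A hA.1 _ hB.1
    rw [hd_insert_right hA.2 hB.2] at h2
    rw [hv]
    have h3 := hd_parity A B
    have h4 := hπ _ hA.1
    have h5 := hπ _ hB.1
    rw [card_insert_of_notMem hB.2] at h5
    omega

/-- Existence of the majority centre. -/
lemma exists_centre (q n : ℕ) (hn : n = 2 * q + 2) (Y : Finset (Finset (Fin (n + 1)))) (π : ℕ)
    (hπ : ∀ y ∈ Y, #y % 2 = π % 2) (hdiam : ∀ x ∈ Y, ∀ y ∈ Y, hd x y ≤ 2 * q) :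
    ∃ c : Finset (Fin (n + 1)), ∀ i, #(Y.filter (fun y => i ∈ y ∆ c)) ≤ 2 * bs (2 * q) q := by
  refine ⟨univ.filter (fun i => ¬ #(Y.filter (fun y => i ∈ y)) ≤ 2 * bs (2 * q) q), ?_⟩
  intro i
  by_cases h : #(Y.filter (fun y => i ∈ y)) ≤ 2 * bs (2 * q) q
  · have : Y.filter (fun y => i ∈ y ∆ (univ.filter
        (fun i => ¬ #(Y.filter (fun y => i ∈ y)) ≤ 2 * bs (2 * q) q))) = Y.filter (fun y => i ∈ y) := by
      apply filter_congr
      intro y _
      rw [mem_symmDiff, mem_filter]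
      constructor
      · rintro (h1 | h1)
        · exact h1.1
        · exact absurd h h1.1.2
      · intro h1
        exact Or.inl ⟨h1, fun h2 => h2.2 h⟩
    rw [this]; exact h
  · have : Y.filter (fun y => i ∈ y ∆ (univ.filter
        (fun i => ¬ #(Y.filter (fun y => i ∈ y)) ≤ 2 * bs (2 * q) q))) = Y.filter (fun y => i ∉ y) := by
      apply filter_congr
      intro y _
      rw [mem_symmDiff, mem_filter]
      constructor
      · rintro (h1 | h1)
        · exact absurd ⟨mem_univ i, h⟩ h1.2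
        · exact h1.2
      · intro h1
        exact Or.inr ⟨⟨mem_univ i, h⟩, h1⟩
    rw [this]
    rcases coord_min q n hn Y π hπ hdiam i with h1 | h1
    · exact h1
    · exact absurd h1 h

/-- Odd dimension `2q+3`, `q ≥ 1`: for every family of diameter `2q+1` some parity functional
omitting at most one coordinate is small. -/
theorem odd_choice (p n : ℕ) (hn : n = 2 * (p + 1) + 2) (F : Finset (Finset (Fin (n + 1))))
    (hF : ∀ x ∈ F, ∀ y ∈ F, hd x y ≤ 2 * (p + 1) + 1) :
    ∃ T : Finset (Fin (n + 1)), n ≤ #T ∧ ∃ ε : ℕ,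
      #(F.filter (fun x => #(x ∩ T) % 2 = ε)) ≤ 4 * bs (2 * (p + 1)) (p + 1) ∧ ε < 2 := by
  by_cases h0 : #(F.filter (fun x => #x % 2 = 0 % 2)) ≤ 4 * bs (2 * (p + 1)) (p + 1)
  · refine ⟨univ, by rw [card_univ, Fintype.card_fin]; omega, 0, ?_, by omega⟩
    simpa only [inter_univ] using h0
  by_cases h1 : #(F.filter (fun x => #x % 2 = 1 % 2)) ≤ 4 * bs (2 * (p + 1)) (p + 1)
  · refine ⟨univ, by rw [card_univ, Fintype.card_fin]; omega, 1, ?_, by omega⟩
    simpa only [inter_univ] using h1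
  push Not at h0 h1
  have hd0 : ∀ π : ℕ, ∀ x ∈ F.filter (fun x => #x % 2 = π % 2),
      ∀ y ∈ F.filter (fun x => #x % 2 = π % 2), hd x y ≤ 2 * (p + 1) := by
    intro π x hx y hy
    rw [mem_filter] at hx hy
    have h3 := hF x hx.1 y hy.1
    have h4 := hd_parity x y
    omega
  have hp0 : ∀ π : ℕ, ∀ x ∈ F.filter (fun x => #x % 2 = π % 2), #x % 2 = π % 2 :=
    fun π x hx => (mem_filter.mp hx).2
  obtain ⟨c0, hc0⟩ := exists_centre (p + 1) n hn _ 0 (hp0 0) (hd0 0)
  obtain ⟨c1, hc1⟩ := exists_centre (p + 1) n hn _ 1 (hp0 1) (hd0 1)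
  have e0 := centre_parity p n hn _ 0 (hp0 0) (hd0 0) h0 c0 hc0
  have e1 := centre_parity p n hn _ 1 (hp0 1) (hd0 1) h1 c1 hc1
  have hne : c0 ≠ c1 := by
    intro h
    rw [h] at e0
    omega
  obtain ⟨i, hi⟩ : ∃ i, i ∈ c0 ∆ c1 := by
    by_contra hcon
    push Not at hcon
    apply hne
    ext i
    have := hcon i
    rw [mem_symmDiff] at this
    tauto
  refine ⟨univ.erase i, by rw [card_erase_of_mem (mem_univ i), card_univ, Fintype.card_fin]; rfl, ?_⟩
  have hinter : ∀ x : Finset (Fin (n + 1)), x ∩ univ.erase i = x.erase i := by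
    intro x
    ext a
    rw [mem_inter, mem_erase, mem_erase]
    constructor
    · rintro ⟨h, h', _⟩; exact ⟨h', h⟩
    · rintro ⟨h, h'⟩; exact ⟨h', h, mem_univ a⟩
  have hb0 := hc0 i
  have hb1 := hc1 i
  rw [mem_symmDiff] at hi
  -- the two small halves
  have key : ∀ ε : ℕ, ε < 2 →
      (∀ x, #(x.erase i) % 2 = ε → #x % 2 = 0 → i ∈ x ∆ c0) →
      (∀ x, #(x.erase i) % 2 = ε → #x % 2 = 1 → i ∈ x ∆ c1) →
      #(F.filter (fun x => #(x ∩ univ.erase i) % 2 = ε)) ≤ 4 * bs (2 * (p + 1)) (p + 1) := by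
    intro ε _ k0 k1
    have hsub : F.filter (fun x => #(x ∩ univ.erase i) % 2 = ε)
        ⊆ (F.filter (fun x => #x % 2 = 0 % 2)).filter (fun y => i ∈ y ∆ c0)
          ∪ (F.filter (fun x => #x % 2 = 1 % 2)).filter (fun y => i ∈ y ∆ c1) := by
      intro x hx
      rw [mem_filter, hinter] at hx
      rw [mem_union, mem_filter, mem_filter, mem_filter, mem_filter]
      rcases Nat.mod_two_eq_zero_or_one (#x) with h | h
      · exact Or.inl ⟨⟨hx.1, h⟩, k0 x hx.2 h⟩
      · exact Or.inr ⟨⟨hx.1, h⟩, k1 x hx.2 h⟩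
    refine (card_le_card hsub).trans ((card_union_le _ _).trans ?_)
    omega
  have hmem : ∀ x : Finset (Fin (n + 1)), i ∈ x → #(x.erase i) + 1 = #x :=
    fun x hx => card_erase_add_one hx
  have hnmem : ∀ x : Finset (Fin (n + 1)), i ∉ x → #(x.erase i) = #x :=
    fun x hx => by rw [erase_eq_of_notMem hx]
  rcases hi with hi | hi
  · refine ⟨0, key 0 (by omega) ?_ ?_, by omega⟩
    · intro x h2 h3
      rw [mem_symmDiff]
      by_cases h4 : i ∈ x
      · have := hmem x h4; omega
      · exact Or.inr ⟨hi.1, h4⟩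
    · intro x h2 h3
      rw [mem_symmDiff]
      by_cases h4 : i ∈ x
      · exact Or.inl ⟨h4, hi.2⟩
      · have := hnmem x h4; omega
  · refine ⟨1, key 1 (by omega) ?_ ?_, by omega⟩
    · intro x h2 h3
      rw [mem_symmDiff]
      by_cases h4 : i ∈ x
      · exact Or.inl ⟨h4, hi.2⟩
      · have := hnmem x h4; omega
    · intro x h2 h3
      rw [mem_symmDiff]
      by_cases h4 : i ∈ x
      · have := hmem x h4; omega
      · exact Or.inr ⟨hi.1, h4⟩

end CodimTwo
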