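import Pool.Agent.H.MP_602efc_co.Parity

/-!
# The weight argument

A ternary word on the coordinate set `Fin d` is a pair `(O, Z)` of disjoint sets, the positions
carrying a `1` and those carrying a `0`.
-/

namespace CodimTwo

open Finset

variable {d : ℕ}

/-- Number of positions where one word has `0` and the other has `1`. -/
def wdist (u v : Finset (Fin d) × Finset (Fin d)) : ℕ := #(u.1 ∩ v.2) + #(u.2 ∩ v.1)

/-- The points of the cube compatible with a word. -/
def cube (w : Finset (Fin d) × Finset (Fin d)) : Finset (Finset (Fin d)) := Icc w.1 w.2ᶜ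

lemma mem_cube (w : Finset (Fin d) × Finset (Fin d)) (x : Finset (Fin d)) :
    x ∈ cube w ↔ w.1 ⊆ x ∧ w.2 ⊆ xᶜ := by
  rw [cube, mem_Icc]
  constructor
  · rintro ⟨h1, h2⟩
    refine ⟨h1, ?_⟩
    intro a ha
    rw [mem_compl]
    intro h
    exact (mem_compl.mp (h2 h)) ha
  · rintro ⟨h1, h2⟩
    refine ⟨h1, ?_⟩
    intro a ha
    rw [mem_compl]
    intro h
    exact (mem_compl.mp (h2 h)) ha

lemma card_cube (w : Finset (Fin d) × Finset (Fin d)) (h : Disjoint w.1 w.2) :
    #(cube w) = 2 ^ (d - (#w.1 + #w.2)) := by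
  rw [cube, card_Icc_finset, card_compl, Fintype.card_fin]
  · congr 1; omega
  · intro a ha
    rw [mem_compl]
    intro h'
    exact (disjoint_left.mp h) ha h'

lemma card_word_le (w : Finset (Fin d) × Finset (Fin d)) (h : Disjoint w.1 w.2) :
    #w.1 + #w.2 ≤ d := by
  rw [← card_union_of_disjoint h]
  refine (card_le_univ _).trans ?_
  rw [Fintype.card_fin]

lemma cube_disjoint {u v : Finset (Fin d) × Finset (Fin d)} (h : 1 ≤ wdist u v) :
    Disjoint (cube u) (cube v) := by
  rw [disjoint_left]
  intro x hx hy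
  rw [mem_cube] at hx hy
  unfold wdist at h
  have h1 : u.1 ∩ v.2 = ∅ := by
    rw [eq_empty_iff_forall_notMem]
    intro a ha
    rw [mem_inter] at ha
    exact (mem_compl.mp (hy.2 ha.2)) (hx.1 ha.1)
  have h2 : u.2 ∩ v.1 = ∅ := by
    rw [eq_empty_iff_forall_notMem]
    intro a ha
    rw [mem_inter] at ha
    exact (mem_compl.mp (hx.2 ha.1)) (hy.1 ha.2)
  rw [h1, h2] at h
  simp at h

/-- A cube with a free coordinate in `T` is balanced. -/
lemma cube_balanced (w : Finset (Fin d) × Finset (Fin d)) (T : Finset (Fin d)) (i : Fin d)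
    (hiT : i ∈ T) (hi1 : i ∉ w.1) (hi2 : i ∉ w.2) (ε : ℕ) (hε : ε < 2) :
    2 * #((cube w).filter (fun x => #(x ∩ T) % 2 = ε)) = #(cube w) := by
  have flip : ∀ x : Finset (Fin d), x ∈ cube w → symmDiff x {i} ∈ cube w := by
    intro x hx
    rw [mem_cube] at hx ⊢
    constructor
    · intro a ha
      rw [mem_symmDiff, mem_singleton]
      exact Or.inl ⟨hx.1 ha, fun h => hi1 (h ▸ ha)⟩
    · intro a ha
      rw [mem_compl, mem_symmDiff, mem_singleton]
      have h1 := mem_compl.mp (hx.2 ha)
      rintro (h | h)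
      · exact h1 h.1
      · exact hi2 (h.1 ▸ ha)
  have par : ∀ x : Finset (Fin d),
      #(symmDiff x {i} ∩ T) % 2 = (#(x ∩ T) + 1) % 2 := by
    intro x
    by_cases h : i ∈ x
    · have h1 : symmDiff x {i} ∩ T = (x ∩ T).erase i := by
        ext a
        simp only [mem_inter, mem_symmDiff, mem_singleton, mem_erase]
        constructor
        · rintro ⟨h1 | h1, h2⟩
          · exact ⟨h1.2, h1.1, h2⟩
          · exact absurd (h1.1 ▸ h) h1.2
        · rintro ⟨h1, h2, h3⟩
          exact ⟨Or.inl ⟨h2, h1⟩, h3⟩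
      have h2 := card_erase_add_one (mem_inter.mpr ⟨h, hiT⟩)
      rw [h1]; omega
    · have h1 : symmDiff x {i} ∩ T = insert i (x ∩ T) := by
        ext a
        simp only [mem_inter, mem_symmDiff, mem_singleton, mem_insert]
        constructor
        · rintro ⟨h1 | h1, h2⟩
          · exact Or.inr ⟨h1.1, h2⟩
          · exact Or.inl h1.1
        · rintro (h1 | ⟨h1, h2⟩)
          · exact ⟨Or.inr ⟨h1, h1 ▸ h⟩, h1 ▸ hiT⟩
          · exact ⟨Or.inl ⟨h1, fun h3 => h (h3 ▸ h1)⟩, h2⟩
      rw [h1, card_insert_of_notMem (by simp [h])]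
  have hbij : #((cube w).filter (fun x => #(x ∩ T) % 2 = ε))
      = #((cube w).filter (fun x => ¬ #(x ∩ T) % 2 = ε)) := by
    apply card_bij (fun x _ => symmDiff x {i})
    · intro x hx
      rw [mem_filter] at hx ⊢
      refine ⟨flip x hx.1, ?_⟩
      rw [par]; omega
    · intro x _ y _ hxy
      exact symmDiff_inj {i} hxy
    · intro y hy
      rw [mem_filter] at hy
      refine ⟨symmDiff y {i}, ?_, symmDiff_symmDiff_cancel_right _ _⟩
      rw [mem_filter]
      refine ⟨flip y hy.1, ?_⟩
      rw [par]; omega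
  have := card_filter_add_card_filter_not (s := cube w) (fun x => #(x ∩ T) % 2 = ε)
  omega

/-- The weight argument: `2 #W ≤ 2^d + β` where `β` bounds one side of a parity functional
on the antipodes of the full words. -/
theorem words_bound (hd2 : 2 ≤ d) (W : Finset (Finset (Fin d) × Finset (Fin d)))
    (hdisj : ∀ w ∈ W, Disjoint w.1 w.2)
    (h1 : ∀ u ∈ W, ∀ v ∈ W, u ≠ v → 1 ≤ wdist u v)
    (h2 : ∀ u ∈ W, ∀ v ∈ W, u ≠ v → wdist u v ≤ d - 2)
    (T : Finset (Fin d)) (hT : d - 1 ≤ #T) (ε β : ℕ) (hε : ε < 2)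
    (hβ : #(((W.filter (fun w => #w.1 + #w.2 = d)).image Prod.snd).filter
      (fun x => #(x ∩ T) % 2 = ε)) ≤ β) : 2 * #W ≤ 2 ^ d + β := by
  set W0 := W.filter (fun w => #w.1 + #w.2 = d) with hW0
  set W1 := W.filter (fun w => #w.1 + #w.2 + 1 = d) with hW1
  set W2 := W.filter (fun w => #w.1 + #w.2 + 2 ≤ d) with hW2
  set B := W0.image Prod.snd with hB
  set S := W2.biUnion cube with hS
  set U := W.biUnion cube with hU
  have full : ∀ w ∈ W0, w.1 = w.2ᶜ := by
    intro w hw
    rw [hW0, mem_filter] at hw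
    have h3 := hdisj w hw.1
    apply eq_of_subset_of_card_le
    · intro a ha
      rw [mem_compl]
      exact (disjoint_left.mp h3) ha
    · rw [card_compl, Fintype.card_fin]; omega
  have cardB : #B = #W0 := by
    rw [hB]
    apply card_image_of_injOn
    intro u hu v hv huv
    have e1 := full u hu
    have e2 := full v hv
    apply Prod.ext
    · rw [e1, e2, huv]
    · exact huv
  have hsplit : #W = #W0 + #W1 + #W2 := by
    have e1 := card_filter_add_card_filter_not (s := W) (fun w => #w.1 + #w.2 = d)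
    have e2 := card_filter_add_card_filter_not
      (s := W.filter (fun w => ¬ #w.1 + #w.2 = d)) (fun w => #w.1 + #w.2 + 1 = d)
    have e3 : (W.filter (fun w => ¬ #w.1 + #w.2 = d)).filter (fun w => #w.1 + #w.2 + 1 = d) = W1 := by
      rw [filter_filter, hW1]
      apply filter_congr
      intro w _
      constructor
      · exact fun h => h.2
      · intro h; exact ⟨by omega, h⟩
    have e4 : (W.filter (fun w => ¬ #w.1 + #w.2 = d)).filter (fun w => ¬ #w.1 + #w.2 + 1 = d)
        = W2 := by
      rw [filter_filter, hW2]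
      apply filter_congr
      intro w hw
      have := card_word_le w (hdisj w hw)
      omega
    rw [e3, e4] at e2
    rw [← hW0] at e1
    omega
  have hpd : ∀ V ⊆ W, (V : Set (Finset (Fin d) × Finset (Fin d))).PairwiseDisjoint cube := by
    intro V hV u hu v hv huv
    exact cube_disjoint (h1 u (hV hu) v (hV hv) huv)
  have cardU : #U = ∑ w ∈ W, #(cube w) := by
    rw [hU]; exact card_biUnion (hpd W subset_rfl)
  have cardS : #S = ∑ w ∈ W2, #(cube w) := by
    rw [hS]; exact card_biUnion (hpd W2 (filter_subset _ _))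
  -- the antipodes of full words only meet large cubes
  have hBU : B ∩ U ⊆ B ∩ S := by
    intro x hx
    rw [mem_inter] at hx
    rw [mem_inter]
    refine ⟨hx.1, ?_⟩
    obtain ⟨w', hw', rfl⟩ := mem_image.mp hx.1
    obtain ⟨w, hw, hxw⟩ := mem_biUnion.mp hx.2
    rw [hS, mem_biUnion]
    refine ⟨w, ?_, hxw⟩
    have hw'W := (mem_filter.mp hw').1
    have hc' := (mem_filter.mp hw').2
    have hf := full w' hw'
    rw [mem_cube] at hxw
    have hdist : wdist w w' = #w.1 + #w.2 := by
      unfold wdist
      rw [inter_eq_left.mpr hxw.1, inter_eq_left.mpr (by rw [hf]; exact hxw.2)]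
    rw [hW2, mem_filter]
    refine ⟨hw, ?_⟩
    by_cases hne : w = w'
    · exfalso
      rw [hne] at hxw
      have h3 := hdisj w' hw'W
      have e1 : w'.1 = ∅ := by
        rw [eq_empty_iff_forall_notMem]
        intro a ha
        exact (disjoint_left.mp h3) ha (hxw.1 ha)
      have e2 : w'.2 = ∅ := by
        rw [eq_empty_iff_forall_notMem]
        intro a ha
        exact (mem_compl.mp (hxw.2 ha)) ha
      rw [e1, e2] at hc'
      simp at hc'
      omega
    · have := h2 w hw w' hw'W hne
      omega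
  -- balance
  have hbal : ∀ w ∈ W2, 2 * #((cube w).filter (fun x => #(x ∩ T) % 2 = ε)) = #(cube w) := by
    intro w hw
    rw [hW2, mem_filter] at hw
    have hex : ∃ i, i ∈ T ∧ i ∉ w.1 ∪ w.2 := by
      by_contra hcon
      push Not at hcon
      have h3 : T ⊆ w.1 ∪ w.2 := fun i hi => hcon i hi
      have h4 := card_le_card h3
      have h5 := card_union_le w.1 w.2
      omega
    obtain ⟨i, hi, hi'⟩ := hex
    rw [mem_union, not_or] at hi'
    exact cube_balanced w T i hi hi'.1 hi'.2 ε hε
  have hSbal : 2 * #(S.filter (fun x => #(x ∩ T) % 2 = ε)) = #S := by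
    rw [cardS, hS, filter_biUnion, card_biUnion, mul_sum]
    · exact sum_congr rfl hbal
    · intro u hu v hv huv
      exact (cube_disjoint (h1 u (mem_filter.mp hu).1 v (mem_filter.mp hv).1 huv)).mono
        (filter_subset _ _) (filter_subset _ _)
  have hSneg := card_filter_add_card_filter_not (s := S) (fun x => #(x ∩ T) % 2 = ε)
  -- bound on `#(B ∩ S)`
  have hBS : #(B ∩ S) ≤ β + #(S.filter (fun x => ¬ #(x ∩ T) % 2 = ε)) := by
    have e1 := card_filter_add_card_filter_not (s := B ∩ S) (fun x => #(x ∩ T) % 2 = ε)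
    have e2 : #((B ∩ S).filter (fun x => #(x ∩ T) % 2 = ε)) ≤ β :=
      (card_le_card (filter_subset_filter _ inter_subset_left)).trans hβ
    have e3 : #((B ∩ S).filter (fun x => ¬ #(x ∩ T) % 2 = ε))
        ≤ #(S.filter (fun x => ¬ #(x ∩ T) % 2 = ε)) :=
      card_le_card (filter_subset_filter _ inter_subset_right)
    omega
  -- volume
  have hvol : #U + #B ≤ 2 ^ d + #(B ∩ S) := by
    have e1 := card_union_add_card_inter B U
    have e2 : #(B ∪ U) ≤ 2 ^ d := by
      refine (card_le_univ _).trans ?_
      rw [Fintype.card_finset, Fintype.card_fin]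
    have e3 := card_le_card hBU
    omega
  -- sizes of the cubes
  have hUsum : #W0 + 2 * #W1 + #S ≤ #U := by
    have e0 : #W0 = ∑ w ∈ W0, #(cube w) := by
      rw [card_eq_sum_ones]
      apply sum_congr rfl
      intro w hw
      have hw' := mem_filter.mp hw
      rw [card_cube w (hdisj w hw'.1), hw'.2, Nat.sub_self, pow_zero]
    have e1 : 2 * #W1 = ∑ w ∈ W1, #(cube w) := by
      rw [card_eq_sum_ones, mul_sum]
      apply sum_congr rfl
      intro w hw
      have hw' := mem_filter.mp hw
      rw [card_cube w (hdisj w hw'.1), show d - (#w.1 + #w.2) = 1 by omega]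
      norm_num
    rw [cardU, cardS, e0, e1]
    rw [← sum_union, ← sum_union]
    · apply sum_le_sum_of_subset
      intro w hw
      rw [mem_union, mem_union] at hw
      rcases hw with (hw | hw) | hw
      · exact (mem_filter.mp hw).1
      · exact (mem_filter.mp hw).1
      · exact (mem_filter.mp hw).1
    · rw [disjoint_left]
      intro w hw hw'
      rw [mem_union] at hw
      have h5 := (mem_filter.mp hw').2
      rcases hw with hw | hw
      · have := (mem_filter.mp hw).2; omega
      · have := (mem_filter.mp hw).2; omega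
    · rw [disjoint_left]
      intro w hw hw'
      have h4 := (mem_filter.mp hw).2
      have h5 := (mem_filter.mp hw').2
      omega
  have hSbig : 4 * #W2 ≤ #S := by
    rw [cardS, card_eq_sum_ones, mul_sum]
    apply sum_le_sum
    intro w hw
    have hw' := mem_filter.mp hw
    rw [card_cube w (hdisj w hw'.1)]
    calc 4 * 1 = 2 ^ 2 := by norm_num
      _ ≤ 2 ^ (d - (#w.1 + #w.2)) := Nat.pow_le_pow_right (by norm_num) (by omega)
  omega

end CodimTwo
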